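import Pool.Agent.P8H64.MHN.EveryMain

/-!
# All or nothing: linear combinations of Hodge numbers
-/

set_option autoImplicit false

open Finset

universe u

namespace Pool.Agent.P8H64.MHN

/-- Power sums of `x` and `y`. -/
theorem psumΛ (Λ : PS →+ ℝ) : ∀ (n : ℕ) (G : PS),
    (∀ a c, a + 2 * c = n → Λ (v ^ a * w ^ c * G) = 0) → Λ ((xx ^ n + yy ^ n) * G) = 0 := by
  intro n
  induction n using Nat.strong_induction_on with
  | _ n ih =>
    intro G hG
    match n with
    | 0 =>
      have h := hG 0 0 rfl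
      have e : (xx ^ 0 + yy ^ 0) * G = v ^ 0 * w ^ 0 * G + v ^ 0 * w ^ 0 * G := by ring
      rw [e, map_add, h, add_zero]
    | 1 =>
      have h := hG 1 0 rfl
      have e : (xx ^ 1 + yy ^ 1) * G = v ^ 1 * w ^ 0 * G := by
        rw [v]; ring
      rw [e, h]
    | n + 2 =>
      have h1 := ih (n + 1) (by omega) (v * G) fun a c hac => by
        have := hG (a + 1) c (by omega)
        have e : v ^ a * w ^ c * (v * G) = v ^ (a + 1) * w ^ c * G := by ring
        rw [e, this]
      have h2 := ih n (by omega) (w * G) fun a c hac => by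
        have := hG a (c + 1) (by omega)
        have e : v ^ a * w ^ c * (w * G) = v ^ a * w ^ (c + 1) * G := by ring
        rw [e, this]
      have e : (xx ^ (n + 2) + yy ^ (n + 2)) * G =
          (xx ^ (n + 1) + yy ^ (n + 1)) * (v * G) - (xx ^ n + yy ^ n) * (w * G) := by
        rw [v, w]; ring
      rw [e, map_sub, h1, h2, sub_zero]

/-- Power sums of `1` and `x y`. -/
theorem qsumΛ (Λ : PS →+ ℝ) : ∀ (n : ℕ) (G : PS),
    (∀ a c, a + 2 * c = n → Λ (uu ^ a * w ^ c * G) = 0) → Λ ((1 + w ^ n) * G) = 0 := by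
  intro n
  induction n using Nat.strong_induction_on with
  | _ n ih =>
    intro G hG
    match n with
    | 0 =>
      have h := hG 0 0 rfl
      have e : (1 + w ^ 0) * G = uu ^ 0 * w ^ 0 * G + uu ^ 0 * w ^ 0 * G := by ring
      rw [e, map_add, h, add_zero]
    | 1 =>
      have h := hG 1 0 rfl
      have e : (1 + w ^ 1) * G = uu ^ 1 * w ^ 0 * G := by
        rw [uu]; ring
      rw [e, h]
    | n + 2 =>
      have h1 := ih (n + 1) (by omega) (uu * G) fun a c hac => by
        have := hG (a + 1) c (by omega)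
        have e : uu ^ a * w ^ c * (uu * G) = uu ^ (a + 1) * w ^ c * G := by ring
        rw [e, this]
      have h2 := ih n (by omega) (w * G) fun a c hac => by
        have := hG a (c + 1) (by omega)
        have e : uu ^ a * w ^ c * (w * G) = uu ^ a * w ^ (c + 1) * G := by ring
        rw [e, this]
      have e : (1 + w ^ (n + 2)) * G =
          (1 + w ^ (n + 1)) * (uu * G) - (1 + w ^ n) * (w * G) := by
        rw [uu]; ring
      rw [e, map_sub, h1, h2, sub_zero]

/-- The linear form with the coefficients `c`. -/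
noncomputable def lf (c : ℕ → ℕ → ℝ) (D : ℕ) : PS →+ ℝ where
  toFun G := ∑ p ∈ range (D + 1), ∑ q ∈ range (D + 1), c p q * cf G p q
  map_zero' := by
    refine sum_eq_zero fun p _ => sum_eq_zero fun q _ => ?_
    unfold cf
    rw [map_zero, map_zero, mul_zero]
  map_add' G G' := by
    rw [← sum_add_distrib]
    refine sum_congr rfl fun p _ => ?_
    rw [← sum_add_distrib]
    exact sum_congr rfl fun q _ => by rw [cf_add]; ring

theorem lf_apply (c : ℕ → ℕ → ℝ) (D : ℕ) (G : PS) :
    lf c D G = ∑ p ∈ range (D + 1), ∑ q ∈ range (D + 1), c p q * cf G p q := rfl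

/-- Multiplication by `F`. -/
noncomputable def mulF (F : PS) : PS →+ PS := AddMonoidHom.mulLeft F

/-- The sum of the coefficients `c` over the orbit of `(p, q)` under the symmetries of the Hodge
diamond of a variety of dimension `D`. -/
def orbSum (c : ℕ → ℕ → ℝ) (D p q : ℕ) : ℝ :=
  c p q + c q p + (c (D - p) (D - q) + c (D - q) (D - p))

section orbit

variable {d N : ℕ} {F : PS} (h : Sy d F) (c : ℕ → ℕ → ℝ)
  (hL : ∀ i j k, i + j + 2 * k = N → lf c (d + N) (F * (v ^ i * uu ^ j * w ^ k)) = 0)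

include hL in
/-- The sum over an orbit, first form. -/
theorem aorb0 (i j : ℕ) (hij : j ≤ i) (hN : i + j ≤ N) :
    ∑ p ∈ range (d + N + 1), ∑ q ∈ range (d + N + 1), c p q * (fz F (p - i) (q - j) +
      fz F (p - j) (q - i) + (fz F (p - (N - j)) (q - (N - i)) +
        fz F (p - (N - i)) (q - (N - j)))) = 0 := by
  obtain ⟨a, rfl⟩ := Nat.exists_eq_add_of_le hij
  obtain ⟨b, rfl⟩ := Nat.exists_eq_add_of_le hN
  set Λ : PS →+ ℝ := (lf c (d + (j + a + j + b))).comp (mulF F) with hΛ
  have hΛa : ∀ G, Λ G = lf c (d + (j + a + j + b)) (F * G) := fun G => rfl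
  have key : Λ ((xx ^ a + yy ^ a) * ((1 + w ^ b) * w ^ j)) = 0 := by
    refine psumΛ Λ a _ fun a' c' hac => ?_
    have e : v ^ a' * w ^ c' * ((1 + w ^ b) * w ^ j) =
        (1 + w ^ b) * (v ^ a' * w ^ (c' + j)) := by ring
    rw [e]
    refine qsumΛ Λ b _ fun b' c'' hbc => ?_
    have e : uu ^ b' * w ^ c'' * (v ^ a' * w ^ (c' + j)) = v ^ a' * uu ^ b' * w ^ (c'' + c' + j) := by
      ring
    rw [e]
    exact hL _ _ _ (by omega)
  have e : F * ((xx ^ a + yy ^ a) * ((1 + w ^ b) * w ^ j)) =
      F * (xx ^ (j + a) * yy ^ j) + F * (xx ^ j * yy ^ (j + a)) +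
        (F * (xx ^ (j + a + b) * yy ^ (j + b)) + F * (xx ^ (j + b) * yy ^ (j + a + b))) := by
    rw [w]; ring
  rw [hΛa, e, lf_apply] at key
  rw [← key]
  refine sum_congr rfl fun p _ => sum_congr rfl fun q _ => ?_
  rw [cf_add, cf_add, cf_add, cf_monz, cf_monz, cf_monz, cf_monz]
  push_cast
  congr 3
  · congr 1 <;> ring
  · congr 1 <;> ring

/-- The orbit sums of the coefficients. -/
theorem orb_reindex (D : ℕ) (f : ℤ → ℤ → ℝ) (i j : ℤ) :
    ∑ p ∈ range (D + 1), ∑ q ∈ range (D + 1), c p q * (f (p - i) (q - j) + f (q - i) (p - j) +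
      (f (D - p - i) (D - q - j) + f (D - q - i) (D - p - j))) =
    ∑ p ∈ range (D + 1), ∑ q ∈ range (D + 1), orbSum c D p q * f (p - i) (q - j) := by
  have h2 : ∑ p ∈ range (D + 1), ∑ q ∈ range (D + 1), c p q * f (q - i) (p - j) =
      ∑ p ∈ range (D + 1), ∑ q ∈ range (D + 1), c q p * f (p - i) (q - j) := sum_comm
  have hrefl : ∀ g : ℕ → ℕ → ℝ, ∑ p ∈ range (D + 1), ∑ q ∈ range (D + 1), g (D - p) (D - q) =
      ∑ p ∈ range (D + 1), ∑ q ∈ range (D + 1), g p q := by
    intro g
    rw [← sum_range_reflect (fun p => ∑ q ∈ range (D + 1), g p q) (D + 1)]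
    refine sum_congr rfl fun p _ => ?_
    rw [← sum_range_reflect (fun q => g (D + 1 - 1 - p) q) (D + 1)]
    rfl
  have h3 : ∑ p ∈ range (D + 1), ∑ q ∈ range (D + 1), c p q * f (D - p - i) (D - q - j) =
      ∑ p ∈ range (D + 1), ∑ q ∈ range (D + 1), c (D - p) (D - q) * f (p - i) (q - j) := by
    rw [← hrefl fun p q => c p q * f (D - p - i) (D - q - j)]
    refine sum_congr rfl fun p hp => sum_congr rfl fun q hq => ?_
    rw [mem_range] at hp hq
    rw [Nat.cast_sub (show p ≤ D by omega), Nat.cast_sub (show q ≤ D by omega), sub_sub_cancel,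
      sub_sub_cancel]
  have h4 : ∑ p ∈ range (D + 1), ∑ q ∈ range (D + 1), c p q * f (D - q - i) (D - p - j) =
      ∑ p ∈ range (D + 1), ∑ q ∈ range (D + 1), c (D - q) (D - p) * f (p - i) (q - j) := by
    have : ∑ p ∈ range (D + 1), ∑ q ∈ range (D + 1), c p q * f (D - q - i) (D - p - j) =
        ∑ p ∈ range (D + 1), ∑ q ∈ range (D + 1), c q p * f (D - p - i) (D - q - j) := sum_comm
    rw [this, ← hrefl fun p q => c q p * f (D - p - i) (D - q - j)]
    refine sum_congr rfl fun p hp => sum_congr rfl fun q hq => ?_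
    rw [mem_range] at hp hq
    rw [Nat.cast_sub (show p ≤ D by omega), Nat.cast_sub (show q ≤ D by omega), sub_sub_cancel,
      sub_sub_cancel]
  simp only [orbSum, mul_add, add_mul, sum_add_distrib]
  rw [h2, h3, h4]

include h hL in
/-- The sum over an orbit. -/
theorem aorb (i j : ℤ) (hi : 0 ≤ i) (hj : 0 ≤ j) (hi' : i ≤ N) (hj' : j ≤ N) :
    ∑ p ∈ range (d + N + 1), ∑ q ∈ range (d + N + 1), orbSum c (d + N) p q *
      fz F (p - i) (q - j) = 0 := by
  rw [← orb_reindex]
  have t : ∀ p q : ℕ, fz F (p - i) (q - j) + fz F (q - i) (p - j) +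
      (fz F (((d + N : ℕ) : ℤ) - p - i) (((d + N : ℕ) : ℤ) - q - j) +
        fz F (((d + N : ℕ) : ℤ) - q - i) (((d + N : ℕ) : ℤ) - p - j)) =
      fz F (p - i) (q - j) + fz F (p - j) (q - i) + (fz F (p - (N - j)) (q - (N - i)) +
        fz F (p - (N - i)) (q - (N - j))) := by
    intro p q
    have t2 : fz F (q - i) (p - j) = fz F (p - j) (q - i) := h.fz_swap _ _
    have t3 : fz F (((d + N : ℕ) : ℤ) - p - i) (((d + N : ℕ) : ℤ) - q - j) =
        fz F (p - (N - i)) (q - (N - j)) := by
      rw [← h.fz_serre]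
      congr 1 <;> push_cast <;> ring
    have t4 : fz F (((d + N : ℕ) : ℤ) - q - i) (((d + N : ℕ) : ℤ) - p - j) =
        fz F (p - (N - j)) (q - (N - i)) := by
      rw [← h.fz_serre, h.fz_swap]
      congr 1 <;> push_cast <;> ring
    rw [t2, t3, t4]
    ring
  rw [sum_congr rfl fun p _ => sum_congr rfl fun q _ => by rw [t p q]]
  lift i to ℕ using hi
  lift j to ℕ using hj
  have hi' : i ≤ N := by exact_mod_cast hi'
  have hj' : j ≤ N := by exact_mod_cast hj'
  rcases le_total j i with h1 | h1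
  · rcases le_total (i + j) N with h2 | h2
    · exact aorb0 c hL i j h1 h2
    · have := aorb0 c hL (N - j) (N - i) (by omega) (by omega)
      rw [Nat.cast_sub hi', Nat.cast_sub hj'] at this
      have e1 : (N : ℤ) - (N - i) = i := by ring
      have e2 : (N : ℤ) - (N - j) = j := by ring
      rw [e1, e2] at this
      rw [← this]
      exact sum_congr rfl fun p _ => sum_congr rfl fun q _ => by ring
  · rcases le_total (i + j) N with h2 | h2
    · rw [← aorb0 c hL j i h1 (by omega)]
      exact sum_congr rfl fun p _ => sum_congr rfl fun q _ => by ring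
    · have := aorb0 c hL (N - i) (N - j) (by omega) (by omega)
      rw [Nat.cast_sub hi', Nat.cast_sub hj'] at this
      have e1 : (N : ℤ) - (N - i) = i := by ring
      have e2 : (N : ℤ) - (N - j) = j := by ring
      rw [e1, e2] at this
      rw [← this]
      exact sum_congr rfl fun p _ => sum_congr rfl fun q _ => by ring

include h hL in
/-- **The core**: if the linear form vanishes on the products of `F` with the symmetric polynomials
of degree `N`, then `F = 0`, provided its coefficients are deep and some orbit sum is not zero. -/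
theorem acore (hc : ∀ p q, c p q ≠ 0 → d ≤ p ∧ d ≤ q ∧ p ≤ N ∧ q ≤ N)
    (hnz : ∃ p q, p ≤ d + N ∧ q ≤ d + N ∧ orbSum c (d + N) p q ≠ 0) (a b : ℕ) : cf F a b = 0 := by
  classical
  by_contra hne
  set M : ℤ := d + N + 1 with hM
  -- the support
  set S : Finset (ℕ × ℕ) := ((range (d + 1)) ×ˢ (range (d + 1))).filter fun x => cf F x.1 x.2 ≠ 0
    with hS
  have hmem : ∀ a b, cf F a b ≠ 0 → (a, b) ∈ S := by
    intro a b hab
    rw [hS, mem_filter, mem_product, mem_range, mem_range]
    refine ⟨⟨?_, ?_⟩, hab⟩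
    · by_contra hc
      exact hab (h.out _ _ (by omega))
    · by_contra hc
      exact hab (by rw [h.swap]; exact h.out _ _ (by omega))
  obtain ⟨x, hx, hmax⟩ := S.exists_max_image (fun x : ℕ × ℕ => M * x.1 + x.2) ⟨_, hmem a b hne⟩
  obtain ⟨a, b⟩ := x
  have hab : cf F a b ≠ 0 := (mem_filter.1 hx).2
  have had : a ≤ d := by
    have := (mem_product.1 (mem_filter.1 hx).1).1
    rw [mem_range] at this
    omega
  have hbd : b ≤ d := by
    have := (mem_product.1 (mem_filter.1 hx).1).2
    rw [mem_range] at this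
    omega
  have hzmax : ∀ a' b' : ℤ, M * a + b < M * a' + b' → fz F a' b' = 0 := by
    intro a' b' hlt
    by_contra hc
    have hin : 0 ≤ a' ∧ 0 ≤ b' := by
      by_contra hc'
      exact hc (by rw [fz, if_neg hc'])
    have hcf : cf F a'.toNat b'.toNat ≠ 0 := by
      rw [fz, if_pos hin] at hc
      exact hc
    have := hmax _ (hmem _ _ hcf)
    simp only [Int.toNat_of_nonneg hin.1, Int.toNat_of_nonneg hin.2] at this
    omega
  have hfz : fz F a b = cf F a b := by
    rw [fz, if_pos ⟨by omega, by omega⟩]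
    simp
  -- the minimal point of the support of the orbit sums
  set O : Finset (ℕ × ℕ) := ((range (d + N + 1)) ×ˢ (range (d + N + 1))).filter fun x =>
    orbSum c (d + N) x.1 x.2 ≠ 0 with hO
  have hOmem : ∀ p q, (p, q) ∈ O ↔ (p ≤ d + N ∧ q ≤ d + N) ∧ orbSum c (d + N) p q ≠ 0 := by
    intro p q
    rw [hO, mem_filter, mem_product, mem_range, mem_range, Nat.lt_succ_iff, Nat.lt_succ_iff]
  obtain ⟨p0, q0, hp0, hq0, hpq0⟩ := hnz
  obtain ⟨r, hr, hmin⟩ := O.exists_min_image (fun x : ℕ × ℕ => M * x.1 + x.2)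
    ⟨(p0, q0), (hOmem _ _).2 ⟨⟨hp0, hq0⟩, hpq0⟩⟩
  obtain ⟨P, Q⟩ := r
  have hPQ := (hOmem P Q).1 hr
  obtain ⟨⟨hP, hQ⟩, hPQ⟩ := hPQ
  have hdeep : d ≤ P ∧ d ≤ Q ∧ P ≤ N ∧ Q ≤ N := by
    by_contra hcon
    apply hPQ
    have z1 : c P Q = 0 := by
      by_contra hc1
      exact hcon (hc _ _ hc1)
    have z2 : c Q P = 0 := by
      by_contra hc1
      have := hc _ _ hc1
      exact hcon ⟨this.2.1, this.1, this.2.2.2, this.2.2.1⟩
    have z3 : c (d + N - P) (d + N - Q) = 0 := by
      by_contra hc1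
      have := hc _ _ hc1
      exact hcon (by omega)
    have z4 : c (d + N - Q) (d + N - P) = 0 := by
      by_contra hc1
      have := hc _ _ hc1
      exact hcon (by omega)
    rw [orbSum, z1, z2, z3, z4]
    ring
  obtain ⟨k1, k2, k3, k4⟩ := hdeep
  have hsum := aorb h c hL ((P : ℤ) - a) (Q - b) (by omega) (by omega) (by omega) (by omega)
  have hother : ∀ p ∈ range (d + N + 1), ∀ q ∈ range (d + N + 1), (p ≠ P ∨ q ≠ Q) →
      orbSum c (d + N) p q * fz F (p - (P - a)) (q - (Q - b)) = 0 := by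
    intro p hp q hq hne'
    rw [mem_range] at hp hq
    by_cases hz : orbSum c (d + N) p q = 0
    · rw [hz, zero_mul]
    · have hm := hmin (p, q) ((hOmem _ _).2 ⟨⟨by omega, by omega⟩, hz⟩)
      simp only at hm
      have hlt : M * (P : ℤ) + Q < M * p + q := by
        rcases hm.lt_or_eq with h5 | h5
        · exact h5
        · exfalso
          have e : M * ((P : ℤ) - p) = q - Q := by linarith
          rcases lt_trichotomy (P : ℤ) p with hc | hc | hc
          · have : M * ((P : ℤ) - p) ≤ M * (-1) :=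
              mul_le_mul_of_nonneg_left (by omega) (by omega)
            omega
          · rw [hc, sub_self, mul_zero] at e
            rcases hne' with h6 | h6 <;> omega
          · have : M * 1 ≤ M * ((P : ℤ) - p) :=
              mul_le_mul_of_nonneg_left (by omega) (by omega)
            omega
      rw [hzmax, mul_zero]
      have e : M * ((p : ℤ) - (P - a)) + (q - (Q - b)) =
          M * a + b + (M * p + q - (M * P + Q)) := by ring
      rw [e]
      linarith
  rw [sum_eq_single P, sum_eq_single Q] at hsum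
  · rw [sub_sub_cancel, sub_sub_cancel, hfz] at hsum
    rcases mul_eq_zero.1 hsum with h5 | h5
    · exact hPQ h5
    · exact hab h5
  · intro q hq hqQ
    exact hother P (mem_range.2 (by omega)) q hq (Or.inr hqQ)
  · intro hn
    exact absurd (mem_range.2 (by omega)) hn
  · intro p hp hpP
    exact sum_eq_zero fun q hq => hother p hp q hq (Or.inl hpP)
  · intro hn
    exact absurd (mem_range.2 (by omega)) hn

end orbit

end Pool.Agent.P8H64.MHN
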