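import Pool.Agent.P8H64.MHN.Defs

/-!
# Linear combinations of Hodge numbers: definitions
-/

set_option autoImplicit false

universe u

namespace Pool.Agent.P8H64.MHN

/-- The coefficients `c` are zero outside the square `d ≤ p, q ≤ D - d`. -/
def IsDeep (c : ℕ → ℕ → ℝ) (d D : ℕ) : Prop :=
  ∀ p q, c p q ≠ 0 → d ≤ p ∧ d ≤ q ∧ p + d ≤ D ∧ q + d ≤ D

/-- The linear form with the coefficients `c` on the Hodge diamonds of varieties of dimension `D` is
not identically zero in view of the symmetries `h^{p,q} = h^{q,p} = h^{D-p,D-q}`: the sum of the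
coefficients over some orbit is not zero. -/
def IsNontrivial (c : ℕ → ℕ → ℝ) (D : ℕ) : Prop :=
  ∃ p q, p ≤ D ∧ q ≤ D ∧ c p q + c q p + (c (D - p) (D - q) + c (D - q) (D - p)) ≠ 0

/-- The linear combination `∑ c(p, q) h^{p,q}(X)`, the sum over `p, q ≤ D`. -/
noncomputable def Varieties.comb {V : Type u} (T : Varieties V) (c : ℕ → ℕ → ℝ) (D : ℕ) (X : V) :
    ℝ := ∑ p ∈ Finset.range (D + 1), ∑ q ∈ Finset.range (D + 1), c p q * T.h X p q

/-- The sum `b(X)` of all Hodge numbers, that is, of all Betti numbers. -/
noncomputable def Varieties.betti {V : Type u} (T : Varieties V) (X : V) : ℝ :=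
  T.comb (fun _ _ => 1) (T.dim X) X

/-- The linear combination `∑ c(p, q) h^{p,q}` is almost invariant in dimension `D`: for derived
equivalent members `X` and `Y` of dimension `D` the difference of the values, divided by the sum
`b(X)` of all Betti numbers (which is known to be the same for `X` and `Y`), tends to zero as `b(X)`
tends to infinity. In other words, for every `ε > 0` there is a constant `B` such that the difference
is at most `ε b(X) + B`. -/
def Varieties.IsAlmostInvariant {V : Type u} (T : Varieties V) (c : ℕ → ℕ → ℝ) (D : ℕ) : Prop :=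
  ∀ ε : ℝ, 0 < ε → ∃ B : ℝ, ∀ X Y, T.Deq X Y → T.dim X = D →
    |T.comb c D X - T.comb c D Y| ≤ ε * T.betti X + B

end Pool.Agent.P8H64.MHN
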