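import Pool.Agent.P8H64.MHN.All
import Pool.Agent.P8H64.MHN.AllDefs

/-!
# All or nothing: the theorem
-/

set_option autoImplicit false

open Finset

universe u

namespace Pool.Agent.P8H64.MHN

theorem lf_C (c : ℕ → ℕ → ℝ) (D : ℕ) (t : ℝ) (F : PS) :
    lf c D (PowerSeries.C (PowerSeries.C t) * F) = t * lf c D F := by
  rw [lf_apply, lf_apply, mul_sum]
  refine sum_congr rfl fun p _ => ?_
  rw [mul_sum]
  refine sum_congr rfl fun q _ => ?_
  unfold cf
  rw [PowerSeries.coeff_C_mul, PowerSeries.coeff_C_mul]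
  ring

/-- the leading coefficient in `g` -/
theorem lead3 {c : ℕ → ℕ → ℝ} {n : ℕ} {D G P Q : PS} {s : ℕ}
    (h : ∀ g : ℕ, lf c n (D * (P + PowerSeries.C (PowerSeries.C (g : ℝ)) * Q) ^ s * G) = 0) :
    lf c n (D * Q ^ s * G) = 0 := by
  let pol : Polynomial ℝ := ∑ i ∈ range (s + 1),
    Polynomial.C (lf c n (D * Q ^ i * P ^ (s - i) * (s.choose i : PS) * G)) * Polynomial.X ^ i
  have hev : ∀ g : ℕ, pol.eval (g : ℝ) = 0 := by
    intro g
    have e : D * (P + PowerSeries.C (PowerSeries.C (g : ℝ)) * Q) ^ s * G =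
        ∑ i ∈ range (s + 1), PowerSeries.C (PowerSeries.C ((g : ℝ) ^ i)) *
          (D * Q ^ i * P ^ (s - i) * (s.choose i : PS) * G) := by
      rw [add_comm P, (Commute.all _ P).add_pow, mul_sum, sum_mul]
      refine sum_congr rfl fun i _ => ?_
      rw [map_pow, map_pow]
      ring
    have h1 := h g
    rw [e, map_sum] at h1
    rw [Polynomial.eval_finsetSum]
    rw [← h1]
    refine sum_congr rfl fun i _ => ?_
    rw [lf_C, Polynomial.eval_mul, Polynomial.eval_C, Polynomial.eval_pow, Polynomial.eval_X, mul_comm]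
  have hz : pol = 0 := by
    refine Polynomial.eq_zero_of_infinite_isRoot pol ?_
    refine (Set.infinite_range_of_injective (Nat.cast_injective (R := ℝ))).mono ?_
    rintro _ ⟨g, rfl⟩
    exact hev g
  have hc := congrArg (fun q => Polynomial.coeff q s) hz
  simp only [pol, Polynomial.finsetSum_coeff, Polynomial.coeff_C_mul, Polynomial.coeff_X_pow,
    Polynomial.coeff_zero] at hc
  rw [sum_eq_single s] at hc
  · simpa using hc
  · intro i _ hi
    rw [if_neg (Ne.symm hi), mul_zero]
  · intro hs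
    exact absurd (mem_range.2 (Nat.lt_succ_self s)) hs

/-- The leading coefficient is determined up to `o(1)`. -/
theorem lin_almost2 {p p' c c' a b : ℝ} (hb : 0 ≤ b)
    (h : ∀ ε : ℝ, 0 < ε → ∃ B : ℝ, ∀ g : ℕ, |(c + g * p) - (c' + g * p')| ≤ ε * (a + g * b) + B) :
    p = p' := by
  by_contra hne
  have h1 : 0 < |p - p'| := abs_pos.2 (sub_ne_zero.2 hne)
  set ε := |p - p'| / (2 * (b + 1)) with hε
  have hε0 : 0 < ε := by positivity
  obtain ⟨B, hB⟩ := h ε hε0
  obtain ⟨n, hn⟩ := exists_nat_gt (2 * (|c - c'| + ε * a + B) / |p - p'|)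
  have h2 := hB n
  have hn0 : (0 : ℝ) ≤ n := Nat.cast_nonneg n
  have h3 : (n : ℝ) * |p - p'| ≤ |c + n * p - (c' + n * p')| + |c - c'| := by
    have e : (n : ℝ) * (p - p') = (c + n * p - (c' + n * p')) - (c - c') := by ring
    rw [← abs_of_nonneg hn0, ← abs_mul, abs_of_nonneg hn0, e]
    exact abs_sub _ _
  have h7 : ε * b ≤ |p - p'| / 2 := by
    rw [hε, div_mul_eq_mul_div, div_le_div_iff₀ (by positivity) (by norm_num)]
    nlinarith
  have h5 : ε * (a + n * b) ≤ ε * a + n * (|p - p'| / 2) := by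
    have : n * (ε * b) ≤ n * (|p - p'| / 2) := mul_le_mul_of_nonneg_left h7 hn0
    calc ε * (a + n * b) = ε * a + n * (ε * b) := by ring
      _ ≤ _ := by linarith
  rw [div_lt_iff₀ h1] at hn
  linarith

section Main

variable {V : Type u} (T : Varieties V)

/-- The vanishing of the linear form on the products with symmetric polynomials. -/
theorem claimA (hC : T.HasCurves) (hP : T.HasPlane) {n n0 : ℕ} {c : ℕ → ℕ → ℝ} (E : PS)
    (hinv : ∀ X Y, T.Deq X Y → T.dim X = n → lf c n0 (H T X * E) = lf c n0 (H T Y * E))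
    (X Y : V) (hXY : T.Deq X Y) {k : ℕ} (hk : n = T.dim X + k) :
    ∀ i j l, i + j + 2 * l = k → lf c n0 ((H T X - H T Y) * E * (v ^ i * uu ^ j * w ^ l)) = 0 := by
  obtain ⟨L, hL⟩ := hC 0
  obtain ⟨S, hS⟩ := hP
  choose Z hZ using hC
  set D : PS := H T X - H T Y with hD
  have claim : ∀ i c' N s, s + 2 * i + 2 * c' + N = k →
      lf c n0 (D * E * v ^ s * w ^ i * (H T S ^ c' * uu ^ N)) = 0 := by
    intro i
    induction i with
    | zero =>
      intro c' N s hs
      rw [pow_zero, mul_one]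
      refine lead3 (P := uu) fun g => ?_
      have hH : ∀ W, H T (pad T L (pad T S (pad T (Z g) W s) c') N) * E =
          H T W * E * (uu + PowerSeries.C (PowerSeries.C (g : ℝ)) * v) ^ s *
            (H T S ^ c' * uu ^ N) := by
        intro W
        rw [pad_H, pad_H, pad_H, H_curve T (hZ g) hL, H_line T hL, vv_eq]
        ring
      have hdim : T.dim (pad T L (pad T S (pad T (Z g) X s) c') N) = n := by
        rw [pad_dim', pad_dim', pad_dim', hL.1, hS.1, (hZ g).1, hk]
        omega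
      have h1 := hinv _ _ (pad_deq T (pad_deq T (pad_deq T hXY s) c') N) hdim
      rw [hH, hH] at h1
      have e : D * E * (uu + PowerSeries.C (PowerSeries.C (g : ℝ)) * v) ^ s *
            (H T S ^ c' * uu ^ N) =
          H T X * E * (uu + PowerSeries.C (PowerSeries.C (g : ℝ)) * v) ^ s * (H T S ^ c' * uu ^ N) -
          H T Y * E * (uu + PowerSeries.C (PowerSeries.C (g : ℝ)) * v) ^ s *
            (H T S ^ c' * uu ^ N) := by
        rw [hD]; ring
      rw [e, map_sub, h1, sub_self]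
    | succ i ih =>
      intro c' N s hs
      have h1 := ih c' (N + 2) s (by omega)
      have h2 := ih (c' + 1) N s (by omega)
      have e : D * E * v ^ s * w ^ (i + 1) * (H T S ^ c' * uu ^ N) =
          D * E * v ^ s * w ^ i * (H T S ^ c' * uu ^ (N + 2)) -
            D * E * v ^ s * w ^ i * (H T S ^ (c' + 1) * uu ^ N) := by
        have hw : w = uu ^ 2 - H T S := by
          rw [H_plane T hS, uu]; ring
        linear_combination (D * E * v ^ s * w ^ i * (H T S ^ c' * uu ^ N)) * hw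
      rw [e, map_sub, h1, h2, sub_zero]
  intro i j l hijl
  have := claim l 0 j i (by omega)
  have e : D * E * (v ^ i * uu ^ j * w ^ l) = D * E * v ^ i * w ^ l * (H T S ^ 0 * uu ^ j) := by ring
  rw [e, this]

theorem comb_eq (c : ℕ → ℕ → ℝ) (D : ℕ) (X : V) : T.comb c D X = lf c D (H T X) := by
  rw [lf_apply, Varieties.comb]
  exact sum_congr rfl fun p _ => sum_congr rfl fun q _ => by rw [cf_H]

theorem deep_le {c : ℕ → ℕ → ℝ} {d D : ℕ} (hc : IsDeep c d D) (hnz : IsNontrivial c D) :
    2 * d ≤ D := by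
  obtain ⟨p, q, hp, hq, h⟩ := hnz
  by_contra hlt
  have h0 : ∀ a b, c a b = 0 := fun a b => by
    by_contra h1
    have := hc a b h1
    omega
  exact h (by rw [h0, h0, h0, h0]; ring)

theorem all1 (hC : T.HasCurves) (hsy : T.Symm) (hP : T.HasPlane) {D d : ℕ} {c : ℕ → ℕ → ℝ}
    (hc : IsDeep c d D) (hnz : IsNontrivial c D)
    (hinv : ∀ X Y, T.Deq X Y → T.dim X = D → T.comb c D X = T.comb c D Y)
    {X Y : V} (hXY : T.Deq X Y) (h1 : T.dim X ≤ d) (a b : ℕ) : T.h X a b = T.h Y a b := by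
  have hD := deep_le hc hnz
  obtain ⟨N, rfl⟩ := Nat.exists_eq_add_of_le (show T.dim X ≤ D by omega)
  have hY : T.dim Y = T.dim X := (T.deq_dim X Y hXY).symm
  have hL := claimA T hC hP (n := T.dim X + N) (n0 := T.dim X + N) (c := c) 1
    (fun X' Y' h' hd' => by
      rw [mul_one, mul_one, ← comb_eq, ← comb_eq, hinv X' Y' h' hd']) X Y hXY rfl
  have := acore (F := (H T X - H T Y) * 1) (by rw [mul_one]; exact sy_diff T hsy rfl hY) c hL
    (fun p q hpq => by have := hc p q hpq; omega) hnz a b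
  rw [mul_one, cf_sub, cf_H, cf_H, sub_eq_zero] at this
  exact_mod_cast this

theorem all2 (hC : T.HasCurves) (hsy : T.Symm) (hP : T.HasPlane) {D d : ℕ} {c : ℕ → ℕ → ℝ}
    (hc : IsDeep c d D) (hnz : IsNontrivial c D) (hinv : T.IsAlmostInvariant c D)
    {X Y : V} (hXY : T.Deq X Y) (h1 : T.dim X < d) (a b : ℕ) : T.h X a b = T.h Y a b := by
  have hD := deep_le hc hnz
  obtain ⟨N, rfl⟩ := Nat.exists_eq_add_of_le (show T.dim X + 1 ≤ D by omega)
  have hY : T.dim Y = T.dim X := (T.deq_dim X Y hXY).symm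
  have hL := claimA T hC hP (n := T.dim X + N) (n0 := T.dim X + 1 + N) (c := c) v
    (fun X' Y' h' hd' => by
    obtain ⟨L, hL⟩ := hC 0
    choose Z hZ using hC
    have hH : ∀ (W : V) (g : ℕ) (c : ℕ → ℕ → ℝ), T.comb c (T.dim X + 1 + N) (T.prod W (Z g)) =
        lf c (T.dim X + 1 + N) (H T W * uu) + g * lf c (T.dim X + 1 + N) (H T W * v) := by
      intro W g c
      rw [comb_eq, H_prod, H_curve T (hZ g) hL, H_line T hL, vv_eq]
      have e : H T W * (uu + PowerSeries.C (PowerSeries.C (g : ℝ)) * v) =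
          H T W * uu + PowerSeries.C (PowerSeries.C (g : ℝ)) * (H T W * v) := by ring
      rw [e, map_add, lf_C]
    have hpos : 0 ≤ lf (fun _ _ => 1) (T.dim X + 1 + N) (H T X' * v) := by
      rw [lf_apply]
      refine sum_nonneg fun p _ => sum_nonneg fun q _ => ?_
      rw [one_mul, cf_v]
      have hfz : ∀ x y : ℤ, 0 ≤ fz (H T X') x y := by
        intro x y
        unfold fz
        split_ifs
        · rw [cf_H]
          exact Nat.cast_nonneg _
        · exact le_rfl
      exact add_nonneg (hfz _ _) (hfz _ _)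
    refine lin_almost2 (c := lf c (T.dim X + 1 + N) (H T X' * uu))
      (c' := lf c (T.dim X + 1 + N) (H T Y' * uu))
      (a := lf (fun _ _ => 1) (T.dim X + 1 + N) (H T X' * uu))
      (b := lf (fun _ _ => 1) (T.dim X + 1 + N) (H T X' * v)) hpos fun ε hε => ?_
    obtain ⟨B, hB⟩ := hinv ε hε
    refine ⟨B, fun g => ?_⟩
    have hdim : T.dim (T.prod X' (Z g)) = T.dim X + 1 + N := by
      rw [T.dim_prod, hd', (hZ g).1]; ring
    have := hB _ _ (T.deq_prod X' Y' (Z g) h') hdim
    rw [Varieties.betti, hdim, hH, hH, hH] at this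
    exact this) X Y hXY rfl
  have hzero := eq_zero_of_cf (acore (F := (H T X - H T Y) * v) (d := T.dim X + 1)
    (sy_diff T hsy rfl hY).mul_v c hL (fun p q hpq => by have := hc p q hpq; omega) hnz)
  rcases mul_eq_zero.1 hzero with h5 | h5
  · have : cf (H T X - H T Y) a b = 0 := by
      rw [h5]
      unfold cf
      rw [map_zero, map_zero]
    rw [cf_sub, cf_H, cf_H, sub_eq_zero] at this
    exact_mod_cast this
  · exact absurd h5 v_ne

end Main

end Pool.Agent.P8H64.MHN
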