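import Mathlib

/-!
# Classes of smooth projective varieties with Hodge numbers and a relation stable under products
-/

set_option autoImplicit false

universe u

namespace Pool.Agent.P8H64.MHN

/-- A class `V` of smooth projective complex varieties which is closed under products, with the dimensions, the Hodge
numbers `h X p q = dim H^q(X, Ω^p)`, the products and the relation `Deq X Y` (`D(X) ≃ D(Y)`). The fields are the
following well-known facts: the Hodge numbers vanish outside the square, Serre duality, the Künneth formula, derived
equivalent varieties have the same dimension, and `D(X) ≃ D(Y)` implies `D(X × Z) ≃ D(Y × Z)`. -/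
structure Varieties (V : Type u) where
  /-- the dimension -/
  dim : V → ℕ
  /-- the Hodge numbers -/
  h : V → ℕ → ℕ → ℕ
  /-- the product -/
  prod : V → V → V
  /-- derived equivalence -/
  Deq : V → V → Prop
  /-- the Hodge numbers outside the square -/
  h_out : ∀ X p q, dim X < p ∨ dim X < q → h X p q = 0
  /-- Serre duality -/
  serre : ∀ X p q, p ≤ dim X → q ≤ dim X → h X (dim X - p) (dim X - q) = h X p q
  /-- the dimension of a product -/
  dim_prod : ∀ X Y, dim (prod X Y) = dim X + dim Y
  /-- the Künneth formula -/
  kunneth : ∀ X Y p q, h (prod X Y) p q = ∑ a ∈ Finset.HasAntidiagonal.antidiagonal p, ∑ b ∈ Finset.HasAntidiagonal.antidiagonal q,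
    h X a.1 b.1 * h Y a.2 b.2
  /-- derived equivalent varieties have the same dimension -/
  deq_dim : ∀ X Y, Deq X Y → dim X = dim Y
  /-- derived equivalence is stable under products -/
  deq_prod : ∀ X Y Z, Deq X Y → Deq (prod X Z) (prod Y Z)

/-- The class contains curves of all genera `g`: varieties of dimension one with `h^{0,0} = h^{1,1} = 1` and
`h^{1,0} = h^{0,1} = g`. -/
def Varieties.HasCurves {V : Type u} (T : Varieties V) : Prop :=
  ∀ g : ℕ, ∃ Z : V, T.dim Z = 1 ∧ T.h Z 0 0 = 1 ∧ T.h Z 1 0 = g ∧ T.h Z 0 1 = g ∧ T.h Z 1 1 = 1

end Pool.Agent.P8H64.MHN
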