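import Pool.Agent.P8H64.MHN.Main

/-!
# The Hodge numbers `h^{p,p}` decide
-/

set_option autoImplicit false

universe u

namespace Pool.Agent.P8H64.MHN

open Finset

/-- Hodge symmetry -/
def Varieties.Symm {V : Type u} (T : Varieties V) : Prop := ∀ X p q, T.h X p q = T.h X q p

/-- The class contains a surface with the Hodge numbers of the projective plane. -/
def Varieties.HasPlane {V : Type u} (T : Varieties V) : Prop :=
  ∃ S : V, T.dim S = 2 ∧ ∀ i ≤ 2, ∀ j ≤ 2, T.h S i j = if i = j then 1 else 0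

/-- power series in two variables -/
abbrev PS := PowerSeries (PowerSeries ℝ)

/-- coefficients -/
noncomputable def cf (F : PS) (a b : ℕ) : ℝ := PowerSeries.coeff b (PowerSeries.coeff a F)

theorem cf_add (F G : PS) (a b : ℕ) : cf (F + G) a b = cf F a b + cf G a b := by
  unfold cf; rw [map_add, map_add]

theorem cf_sub (F G : PS) (a b : ℕ) : cf (F - G) a b = cf F a b - cf G a b := by
  unfold cf; rw [map_sub, map_sub]

theorem cf_sum {ι : Type} (s : Finset ι) (F : ι → PS) (a b : ℕ) : cf (∑ i ∈ s, F i) a b = ∑ i ∈ s, cf (F i) a b := by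
  unfold cf; rw [map_sum, map_sum]

theorem cf_mul (F G : PS) (a b : ℕ) : cf (F * G) a b = ∑ x ∈ HasAntidiagonal.antidiagonal a,
    ∑ y ∈ HasAntidiagonal.antidiagonal b, cf F x.1 y.1 * cf G x.2 y.2 := by
  unfold cf
  rw [PowerSeries.coeff_mul, map_sum]
  exact sum_congr rfl fun x _ => PowerSeries.coeff_mul _ _ _

/-- the first variable -/
noncomputable def xx : PS := PowerSeries.X
/-- the second variable -/
noncomputable def yy : PS := PowerSeries.C PowerSeries.X

theorem cf_xx (F : PS) (a b : ℕ) : cf (F * xx) (a + 1) b = cf F a b := by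
  unfold cf xx; rw [PowerSeries.coeff_succ_mul_X]

theorem cf_xx0 (F : PS) (b : ℕ) : cf (F * xx) 0 b = 0 := by
  unfold cf xx; rw [PowerSeries.coeff_zero_mul_X, map_zero]

theorem cf_yy (F : PS) (a b : ℕ) : cf (F * yy) a (b + 1) = cf F a b := by
  unfold cf yy; rw [PowerSeries.coeff_mul_C, PowerSeries.coeff_succ_mul_X]

theorem cf_yy0 (F : PS) (a : ℕ) : cf (F * yy) a 0 = 0 := by
  unfold cf yy; rw [PowerSeries.coeff_mul_C, PowerSeries.coeff_zero_mul_X]

theorem cf_xpow (F : PS) (i a b : ℕ) : cf (F * xx ^ i) a b = if i ≤ a then cf F (a - i) b else 0 := by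
  induction i generalizing F a with
  | zero => rw [pow_zero, mul_one, if_pos (Nat.zero_le a), Nat.sub_zero]
  | succ i ih =>
    rw [pow_succ', ← mul_assoc, ih]
    by_cases h : i + 1 ≤ a
    · rw [if_pos (by omega), if_pos h]
      obtain ⟨c, rfl⟩ : ∃ c, a = i + 1 + c := ⟨a - i - 1, by omega⟩
      rw [show i + 1 + c - i = c + 1 by omega, cf_xx, show i + 1 + c - (i + 1) = c by omega]
    · rw [if_neg h]
      split_ifs with h1
      · rw [show a - i = 0 by omega, cf_xx0]
      · rfl

theorem cf_ypow (F : PS) (i a b : ℕ) : cf (F * yy ^ i) a b = if i ≤ b then cf F a (b - i) else 0 := by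
  induction i generalizing F b with
  | zero => rw [pow_zero, mul_one, if_pos (Nat.zero_le b), Nat.sub_zero]
  | succ i ih =>
    rw [pow_succ', ← mul_assoc, ih]
    by_cases h : i + 1 ≤ b
    · rw [if_pos (by omega), if_pos h]
      obtain ⟨c, rfl⟩ : ∃ c, b = i + 1 + c := ⟨b - i - 1, by omega⟩
      rw [show i + 1 + c - i = c + 1 by omega, cf_yy, show i + 1 + c - (i + 1) = c by omega]
    · rw [if_neg h]
      split_ifs with h1
      · rw [show b - i = 0 by omega, cf_yy0]
      · rfl

/-- `x + y`, `x y` and `1 + x y` -/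
noncomputable def v : PS := xx + yy
/-- `x y` -/
noncomputable def w : PS := xx * yy
/-- `1 + x y` -/
noncomputable def uu : PS := 1 + w

theorem cf_w (F : PS) (a b : ℕ) : cf (F * w) (a + 1) (b + 1) = cf F a b := by
  unfold w; rw [← mul_assoc, cf_yy, cf_xx]

theorem cf_w0 (F : PS) (b : ℕ) : cf (F * w) 0 b = 0 := by
  unfold w
  cases b with
  | zero => rw [← mul_assoc, cf_yy0]
  | succ b => rw [← mul_assoc, cf_yy, cf_xx0]

theorem cf_wpow (F : PS) (i r : ℕ) : cf (F * w ^ i) (r + i) (r + i) = cf F r r := by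
  induction i generalizing F with
  | zero => rw [pow_zero, mul_one]; rfl
  | succ i ih =>
    rw [pow_succ, ← mul_assoc, ← add_assoc, cf_w, ih]

/-- vanishing on the lower left square -/
def Van (F : PS) (r : ℕ) : Prop := ∀ a b, a < r → b < r → cf F a b = 0

theorem Van.mul {F : PS} {r : ℕ} (h : Van F r) (G : PS) : Van (F * G) r := by
  intro a b ha hb
  rw [cf_mul]
  refine sum_eq_zero fun x hx => sum_eq_zero fun y hy => ?_
  rw [HasAntidiagonal.mem_antidiagonal] at hx hy
  rw [h x.1 y.1 (by omega) (by omega), zero_mul]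

theorem cf_upow {F : PS} {r : ℕ} (h : Van F r) (N : ℕ) : cf (F * uu ^ N) r r = cf F r r := by
  induction N with
  | zero => rw [pow_zero, mul_one]
  | succ N ih =>
    have e : F * uu ^ (N + 1) = F * uu ^ N + F * uu ^ N * w := by
      rw [pow_succ, uu]; ring
    rw [e, cf_add, ih]
    cases r with
    | zero => rw [cf_w0, add_zero]
    | succ r => rw [cf_w, (h.mul (uu ^ N)) r r (Nat.lt_succ_self r) (Nat.lt_succ_self r), add_zero]

theorem cf_vpow {F : PS} {r : ℕ} (h : Van F r) (s : ℕ) (hs : s + 1 ≤ r) :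
    cf (F * v ^ (s + 1)) r r = cf F r (r - (s + 1)) + cf F (r - (s + 1)) r := by
  have e : F * v ^ (s + 1) = ∑ i ∈ range (s + 2), F * xx ^ i * yy ^ (s + 1 - i) * ((s + 1).choose i : PS) := by
    rw [v, (Commute.all xx yy).add_pow, mul_sum]
    exact sum_congr rfl fun i _ => by ring
  have hc : ∀ (G : PS) (n : ℕ), cf (G * (n : PS)) r r = n * cf G r r := by
    intro G n
    rw [mul_comm, ← nsmul_eq_mul]
    unfold cf
    rw [map_nsmul, map_nsmul, nsmul_eq_mul]
  rw [e, cf_sum, sum_range_succ, sum_range_succ']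
  have hmid : ∑ i ∈ range s, cf (F * xx ^ (i + 1) * yy ^ (s + 1 - (i + 1)) * ((s + 1).choose (i + 1) : PS)) r r = 0 := by
    refine sum_eq_zero fun i hi => ?_
    rw [mem_range] at hi
    rw [hc, cf_ypow, cf_xpow, if_pos (by omega), if_pos (by omega), h _ _ (by omega) (by omega), mul_zero]
  rw [hmid, hc, hc, cf_ypow, cf_xpow, cf_ypow, cf_xpow]
  simp only [Nat.choose_zero_right, Nat.choose_self, Nat.cast_one, one_mul, zero_add, Nat.sub_zero, Nat.sub_self]
  rw [if_pos (by omega), if_pos (Nat.zero_le r), if_pos (Nat.zero_le r), if_pos (by omega)]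

/-- the induction -/
theorem diag_induct {D : PS} (hsym : ∀ a b, cf D a b = cf D b a) {p k : ℕ} (hk : 2 * p ≤ k)
    (h : ∀ s i N, s + 2 * i + N = k → cf (D * v ^ s * w ^ i * uu ^ N) p p = 0) :
    ∀ r ≤ p + 1, Van D r := by
  intro r
  induction r with
  | zero => intro _ a b ha; omega
  | succ r ih =>
    intro hr
    have hV := ih (by omega)
    have key : ∀ s ≤ r, cf (D * v ^ s) r r = 0 := by
      intro s hs
      have h1 := h s (p - r) (k - s - 2 * (p - r)) (by omega)
      have e : D * v ^ s * w ^ (p - r) * uu ^ (k - s - 2 * (p - r)) =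
          D * v ^ s * uu ^ (k - s - 2 * (p - r)) * w ^ (p - r) := by ring
      have h2 := cf_wpow (D * v ^ s * uu ^ (k - s - 2 * (p - r))) (p - r) r
      rw [show r + (p - r) = p by omega] at h2
      rw [e, h2, cf_upow (hV.mul _)] at h1
      exact h1
    have hrow : ∀ b ≤ r, cf D r b = 0 := by
      intro b hb
      rcases Nat.eq_or_lt_of_le hb with h1 | h1
      · have := key 0 (Nat.zero_le r)
        rw [pow_zero, mul_one] at this
        rw [h1]; exact this
      · have h2 := key (r - b - 1 + 1) (by omega)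
        rw [cf_vpow hV _ (by omega), show r - (r - b - 1 + 1) = b by omega, hsym b r] at h2
        linarith
    intro a b ha hb
    rcases Nat.lt_or_ge a r with h1 | h1
    · rcases Nat.lt_or_ge b r with h2 | h2
      · exact hV a b h1 h2
      · rw [hsym, show b = r by omega]
        exact hrow a (by omega)
    · rw [show a = r by omega]
      exact hrow b (by omega)

/-- the leading coefficient in `g` -/
theorem lead {D G P Q : PS} {p s : ℕ} (h : ∀ g : ℕ, cf (D * (P + PowerSeries.C (PowerSeries.C (g : ℝ)) * Q) ^ s * G) p p = 0) :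
    cf (D * Q ^ s * G) p p = 0 := by
  have hcC : ∀ (t : ℝ) (F : PS), cf (PowerSeries.C (PowerSeries.C t) * F) p p = t * cf F p p := by
    intro t F
    unfold cf
    rw [PowerSeries.coeff_C_mul, PowerSeries.coeff_C_mul]
  let pol : Polynomial ℝ := ∑ i ∈ range (s + 1), Polynomial.C (cf (D * Q ^ i * P ^ (s - i) * (s.choose i : PS) * G) p p) *
    Polynomial.X ^ i
  have hev : ∀ g : ℕ, pol.eval (g : ℝ) = 0 := by
    intro g
    have e : D * (P + PowerSeries.C (PowerSeries.C (g : ℝ)) * Q) ^ s * G =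
        ∑ i ∈ range (s + 1), PowerSeries.C (PowerSeries.C ((g : ℝ) ^ i)) *
          (D * Q ^ i * P ^ (s - i) * (s.choose i : PS) * G) := by
      rw [add_comm P, (Commute.all _ P).add_pow, mul_sum, sum_mul]
      refine sum_congr rfl fun i _ => ?_
      rw [map_pow, map_pow]
      ring
    have h1 := h g
    rw [e, cf_sum] at h1
    rw [Polynomial.eval_finsetSum]
    rw [← h1]
    refine sum_congr rfl fun i _ => ?_
    rw [hcC, Polynomial.eval_mul, Polynomial.eval_C, Polynomial.eval_pow, Polynomial.eval_X, mul_comm]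
  have hz : pol = 0 := by
    refine Polynomial.eq_zero_of_infinite_isRoot pol ?_
    refine (Set.infinite_range_of_injective (Nat.cast_injective (R := ℝ))).mono ?_
    rintro _ ⟨g, rfl⟩
    exact hev g
  have hc := congrArg (fun q => Polynomial.coeff q s) hz
  simp only [pol, Polynomial.finsetSum_coeff, Polynomial.coeff_C_mul, Polynomial.coeff_X_pow,
    Polynomial.coeff_zero] at hc
  rw [sum_eq_single s] at hc
  · simpa using hc
  · intro i _ hi
    rw [if_neg (Ne.symm hi), mul_zero]
  · intro hs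
    exact absurd (mem_range.2 (Nat.lt_succ_self s)) hs

theorem cf_one (a b : ℕ) : cf 1 a b = if a = 0 ∧ b = 0 then 1 else 0 := by
  unfold cf
  rw [PowerSeries.coeff_one]
  by_cases h : a = 0
  · rw [if_pos h, PowerSeries.coeff_one]
    simp [h]
  · rw [if_neg h, map_zero, if_neg (fun h1 => h h1.1)]

theorem cf_mono (i j a b : ℕ) : cf (xx ^ i * yy ^ j) a b = if a = i ∧ b = j then 1 else 0 := by
  have h1 := cf_ypow (1 * xx ^ i) j a b
  rw [cf_xpow, one_mul, cf_one] at h1
  rw [h1]
  split_ifs <;> first | rfl | omega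

theorem vv_eq : vv = v := by
  ext a b
  show cf vv a b = cf (xx + yy) a b
  have e1 := cf_mono 1 0 a b
  have e2 := cf_mono 0 1 a b
  rw [pow_one, pow_zero, mul_one] at e1
  rw [pow_one, pow_zero, one_mul] at e2
  rw [cf_add, e1, e2]
  unfold cf vv
  rw [PowerSeries.coeff_mk, PowerSeries.coeff_mk]
  split_ifs <;> first | omega | simp

section Main

variable {V : Type u} (T : Varieties V)

theorem H_line {L : V} (hL : T.dim L = 1 ∧ T.h L 0 0 = 1 ∧ T.h L 1 0 = 0 ∧ T.h L 0 1 = 0 ∧ T.h L 1 1 = 1) :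
    H T L = uu := by
  obtain ⟨l1, l2, l3, l4, l5⟩ := hL
  ext a b
  rw [H_coeff]
  show _ = cf (1 + w) a b
  have e1 := cf_mono 1 1 a b
  rw [pow_one, pow_one] at e1
  rw [cf_add, cf_one]
  show _ = _ + cf (xx * yy) a b
  rw [e1]
  rcases Nat.lt_or_ge 1 a with ha | ha
  · rw [T.h_out L _ _ (Or.inl (by omega)), if_neg (by omega), if_neg (by omega)]
    simp
  rcases Nat.lt_or_ge 1 b with hb | hb
  · rw [T.h_out L _ _ (Or.inr (by omega)), if_neg (by omega), if_neg (by omega)]
    simp
  interval_cases a <;> interval_cases b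
  · simp [l2]
  · simp [l4]
  · simp [l3]
  · simp [l5]

theorem H_plane {S : V} (hS : T.dim S = 2 ∧ ∀ i ≤ 2, ∀ j ≤ 2, T.h S i j = if i = j then 1 else 0) :
    H T S = 1 + w + w ^ 2 := by
  obtain ⟨s1, s2⟩ := hS
  ext a b
  rw [H_coeff]
  show _ = cf (1 + w + w ^ 2) a b
  have e1 := cf_mono 1 1 a b
  have e2 := cf_mono 2 2 a b
  rw [pow_one, pow_one] at e1
  rw [← mul_pow] at e2
  rw [cf_add, cf_add, cf_one]
  show _ = _ + cf (xx * yy) a b + cf ((xx * yy) ^ 2) a b
  rw [e1, e2]
  rcases Nat.lt_or_ge 2 a with ha | ha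
  · rw [T.h_out S _ _ (Or.inl (by omega)), if_neg (by omega), if_neg (by omega), if_neg (by omega)]
    simp
  rcases Nat.lt_or_ge 2 b with hb | hb
  · rw [T.h_out S _ _ (Or.inr (by omega)), if_neg (by omega), if_neg (by omega), if_neg (by omega)]
    simp
  rw [s2 a ha b hb]
  interval_cases a <;> interval_cases b <;> simp

theorem pad_dim' (L X : V) (e : ℕ) : T.dim (pad T L X e) = T.dim X + T.dim L * e := by
  induction e with
  | zero => rfl
  | succ e ih => rw [pad, T.dim_prod, ih]; ring

/-- **one diagonal Hodge number in one dimension** -/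
theorem diag (hC : T.HasCurves) (hsy : T.Symm) (hP : T.HasPlane) {n p : ℕ}
    (hinv : ∀ X Y, T.Deq X Y → T.dim X = n → T.h X p p = T.h Y p p)
    (X Y : V) (hXY : T.Deq X Y) (hn : T.dim X + 2 * p ≤ n) : ∀ a ≤ p, ∀ b ≤ p, T.h X a b = T.h Y a b := by
  obtain ⟨L, hL⟩ := hC 0
  obtain ⟨S, hS⟩ := hP
  choose Z hZ using hC
  have hY : T.dim Y = T.dim X := (T.deq_dim X Y hXY).symm
  obtain ⟨k, hk⟩ : ∃ k, n = T.dim X + k := ⟨n - T.dim X, by omega⟩
  set D : PS := H T X - H T Y with hD
  have hsym : ∀ a b, cf D a b = cf D b a := by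
    intro a b
    rw [hD, cf_sub, cf_sub]
    show PowerSeries.coeff b (PowerSeries.coeff a (H T X)) - PowerSeries.coeff b (PowerSeries.coeff a (H T Y)) =
      PowerSeries.coeff a (PowerSeries.coeff b (H T X)) - PowerSeries.coeff a (PowerSeries.coeff b (H T Y))
    rw [H_coeff, H_coeff, H_coeff, H_coeff, hsy X a b, hsy Y a b]
  have claim : ∀ i c N s, s + 2 * i + 2 * c + N = k →
      cf (D * v ^ s * w ^ i * (H T S ^ c * uu ^ N)) p p = 0 := by
    intro i
    induction i with
    | zero =>
      intro c N s hs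
      rw [pow_zero, mul_one]
      refine lead (P := uu) fun g => ?_
      have hH : ∀ W, H T (pad T L (pad T S (pad T (Z g) W s) c) N) =
          H T W * (uu + PowerSeries.C (PowerSeries.C (g : ℝ)) * v) ^ s * (H T S ^ c * uu ^ N) := by
        intro W
        rw [pad_H, pad_H, pad_H, H_curve T (hZ g) hL, H_line T hL, vv_eq, mul_assoc (H T W * _)]
      have hdim : T.dim (pad T L (pad T S (pad T (Z g) X s) c) N) = n := by
        rw [pad_dim', pad_dim', pad_dim', hL.1, hS.1, (hZ g).1, hk]
        omega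
      have h1 := hinv _ _ (pad_deq T (pad_deq T (pad_deq T hXY s) c) N) hdim
      have h2 : cf (H T (pad T L (pad T S (pad T (Z g) X s) c) N)) p p =
          cf (H T (pad T L (pad T S (pad T (Z g) Y s) c) N)) p p := by
        unfold cf
        rw [H_coeff, H_coeff, h1]
      rw [hH, hH] at h2
      rw [hD, sub_mul, sub_mul, cf_sub, h2, sub_self]
    | succ i ih =>
      intro c N s hs
      have h1 := ih c (N + 2) s (by omega)
      have h2 := ih (c + 1) N s (by omega)
      have e : D * v ^ s * w ^ (i + 1) * (H T S ^ c * uu ^ N) =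
          D * v ^ s * w ^ i * (H T S ^ c * uu ^ (N + 2)) - D * v ^ s * w ^ i * (H T S ^ (c + 1) * uu ^ N) := by
        have hw : w = uu ^ 2 - H T S := by
          rw [H_plane T hS, uu]; ring
        linear_combination (D * v ^ s * w ^ i * (H T S ^ c * uu ^ N)) * hw
      rw [e, cf_sub, h1, h2, sub_zero]
  have hV := diag_induct hsym (p := p) (k := k) (by omega) (fun s i N hs => by
    have := claim i 0 N s (by omega)
    rw [pow_zero, one_mul] at this
    exact this) (p + 1) le_rfl
  intro a ha b hb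
  have h1 := hV a b (by omega) (by omega)
  rw [hD, cf_sub] at h1
  unfold cf at h1
  rw [H_coeff, H_coeff] at h1
  have h2 : (T.h X a b : ℝ) = T.h Y a b := sub_eq_zero.1 h1
  exact_mod_cast h2

end Main

end Pool.Agent.P8H64.MHN
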