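import Pool.Agent.P8H64.MHN.Diag

/-!
# Every single Hodge number decides: the algebra
-/

set_option autoImplicit false

open Finset

universe u

namespace Pool.Agent.P8H64.MHN

/-- Symmetric polynomials of degree `d`: the symmetries of Hodge polynomials. -/
structure Sy (d : ℕ) (F : PS) : Prop where
  swap : ∀ a b, cf F a b = cf F b a
  out : ∀ a b, d < a → cf F a b = 0
  serre : ∀ a b, a ≤ d → b ≤ d → cf F (d - a) (d - b) = cf F a b

theorem cf_two (F : PS) (a b : ℕ) : cf (F * 2) a b = 2 * cf F a b := by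
  rw [mul_two, cf_add]
  ring

/-- Power sums of `x` and `y`. -/
theorem psum (F : PS) (p q : ℕ) : ∀ (n : ℕ) (G : PS),
    (∀ a c, a + 2 * c = n → cf (F * (v ^ a * w ^ c * G)) p q = 0) →
      cf (F * ((xx ^ n + yy ^ n) * G)) p q = 0 := by
  intro n
  induction n using Nat.strong_induction_on with
  | _ n ih =>
    intro G hG
    match n with
    | 0 =>
      have h := hG 0 0 rfl
      have e : F * ((xx ^ 0 + yy ^ 0) * G) = F * (v ^ 0 * w ^ 0 * G) * 2 := by ring
      rw [e, cf_two, h, mul_zero]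
    | 1 =>
      have h := hG 1 0 rfl
      have e : F * ((xx ^ 1 + yy ^ 1) * G) = F * (v ^ 1 * w ^ 0 * G) := by
        rw [v]; ring
      rw [e, h]
    | n + 2 =>
      have h1 := ih (n + 1) (by omega) (v * G) fun a c hac => by
        have := hG (a + 1) c (by omega)
        have e : v ^ a * w ^ c * (v * G) = v ^ (a + 1) * w ^ c * G := by ring
        rw [e, this]
      have h2 := ih n (by omega) (w * G) fun a c hac => by
        have := hG a (c + 1) (by omega)
        have e : v ^ a * w ^ c * (w * G) = v ^ a * w ^ (c + 1) * G := by ring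
        rw [e, this]
      have e : F * ((xx ^ (n + 2) + yy ^ (n + 2)) * G) =
          F * ((xx ^ (n + 1) + yy ^ (n + 1)) * (v * G)) - F * ((xx ^ n + yy ^ n) * (w * G)) := by
        rw [v, w]; ring
      rw [e, cf_sub, h1, h2, sub_zero]

/-- Power sums of `1` and `x y`. -/
theorem qsum (F : PS) (p q : ℕ) : ∀ (n : ℕ) (G : PS),
    (∀ a c, a + 2 * c = n → cf (F * (uu ^ a * w ^ c * G)) p q = 0) →
      cf (F * ((1 + w ^ n) * G)) p q = 0 := by
  intro n
  induction n using Nat.strong_induction_on with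
  | _ n ih =>
    intro G hG
    match n with
    | 0 =>
      have h := hG 0 0 rfl
      have e : F * ((1 + w ^ 0) * G) = F * (uu ^ 0 * w ^ 0 * G) * 2 := by ring
      rw [e, cf_two, h, mul_zero]
    | 1 =>
      have h := hG 1 0 rfl
      have e : F * ((1 + w ^ 1) * G) = F * (uu ^ 1 * w ^ 0 * G) := by
        rw [uu]; ring
      rw [e, h]
    | n + 2 =>
      have h1 := ih (n + 1) (by omega) (uu * G) fun a c hac => by
        have := hG (a + 1) c (by omega)
        have e : uu ^ a * w ^ c * (uu * G) = uu ^ (a + 1) * w ^ c * G := by ring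
        rw [e, this]
      have h2 := ih n (by omega) (w * G) fun a c hac => by
        have := hG a (c + 1) (by omega)
        have e : uu ^ a * w ^ c * (w * G) = uu ^ a * w ^ (c + 1) * G := by ring
        rw [e, this]
      have e : F * ((1 + w ^ (n + 2)) * G) =
          F * ((1 + w ^ (n + 1)) * (uu * G)) - F * ((1 + w ^ n) * (w * G)) := by
        rw [uu]; ring
      rw [e, cf_sub, h1, h2, sub_zero]

/-- The coefficients as a function of integers. -/
noncomputable def fz (F : PS) (a b : ℤ) : ℝ := if 0 ≤ a ∧ 0 ≤ b then cf F a.toNat b.toNat else 0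

theorem cf_monz (F : PS) (p q i j : ℕ) : cf (F * (xx ^ i * yy ^ j)) p q = fz F (p - i) (q - j) := by
  rw [← mul_assoc, cf_ypow, cf_xpow, fz]
  by_cases hi : i ≤ p
  · by_cases hj : j ≤ q
    · rw [if_pos hj, if_pos hi, if_pos ⟨by omega, by omega⟩]
      congr 1 <;> omega
    · rw [if_neg hj, if_neg (by omega)]
  · have h1 : ¬ (0 ≤ (p : ℤ) - i ∧ 0 ≤ (q : ℤ) - j) := by omega
    rw [if_neg h1, if_neg hi, ite_self]

theorem Sy.fz_swap {d : ℕ} {F : PS} (h : Sy d F) (a b : ℤ) : fz F a b = fz F b a := by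
  unfold fz
  by_cases hab : 0 ≤ a ∧ 0 ≤ b
  · rw [if_pos hab, if_pos hab.symm, h.swap]
  · rw [if_neg hab, if_neg fun h => hab h.symm]

theorem Sy.fz_out {d : ℕ} {F : PS} (h : Sy d F) {a b : ℤ} (hab : a < 0 ∨ b < 0 ∨ d < a ∨ d < b) :
    fz F a b = 0 := by
  unfold fz
  split_ifs with h1
  · obtain ⟨h2, h3⟩ := h1
    rcases hab with h4 | h4 | h4 | h4
    · omega
    · omega
    · exact h.out _ _ (by omega)
    · rw [h.swap]
      exact h.out _ _ (by omega)
  · rfl

theorem Sy.fz_serre {d : ℕ} {F : PS} (h : Sy d F) (a b : ℤ) : fz F (d - a) (d - b) = fz F a b := by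
  by_cases hab : a < 0 ∨ b < 0 ∨ (d : ℤ) < a ∨ (d : ℤ) < b
  · rw [h.fz_out hab, h.fz_out (by omega)]
  · push Not at hab
    obtain ⟨h1, h2, h3, h4⟩ := hab
    unfold fz
    rw [if_pos ⟨by omega, by omega⟩, if_pos ⟨h1, h2⟩, ← h.serre a.toNat b.toNat (by omega) (by omega)]
    congr 1 <;> omega

section orbit

variable {d N p q : ℕ} {F : PS} (h : Sy d F)
  (hL : ∀ i j k, i + j + 2 * k = N → cf (F * (v ^ i * uu ^ j * w ^ k)) p q = 0)

include hL in
/-- The sum over an orbit, first form. -/
theorem orb0 (i j : ℕ) (hij : j ≤ i) (hN : i + j ≤ N) :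
    fz F (p - i) (q - j) + fz F (p - j) (q - i) +
      (fz F (p - (N - j)) (q - (N - i)) + fz F (p - (N - i)) (q - (N - j))) = 0 := by
  obtain ⟨a, rfl⟩ := Nat.exists_eq_add_of_le hij
  obtain ⟨b, rfl⟩ := Nat.exists_eq_add_of_le hN
  have key : cf (F * ((xx ^ a + yy ^ a) * ((1 + w ^ b) * w ^ j))) p q = 0 := by
    refine psum F p q a _ fun a' c' hac => ?_
    have e : F * (v ^ a' * w ^ c' * ((1 + w ^ b) * w ^ j)) =
        F * ((1 + w ^ b) * (v ^ a' * w ^ (c' + j))) := by ring
    rw [e]
    refine qsum F p q b _ fun b' c'' hbc => ?_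
    have e : uu ^ b' * w ^ c'' * (v ^ a' * w ^ (c' + j)) = v ^ a' * uu ^ b' * w ^ (c'' + c' + j) := by
      ring
    rw [e]
    exact hL _ _ _ (by omega)
  have e : F * ((xx ^ a + yy ^ a) * ((1 + w ^ b) * w ^ j)) =
      F * (xx ^ (j + a) * yy ^ j) + F * (xx ^ j * yy ^ (j + a)) +
        (F * (xx ^ (j + a + b) * yy ^ (j + b)) + F * (xx ^ (j + b) * yy ^ (j + a + b))) := by
    rw [w]; ring
  rw [e, cf_add, cf_add, cf_add, cf_monz, cf_monz, cf_monz, cf_monz] at key
  rw [← key]
  push_cast
  congr 2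
  · congr 1 <;> ring
  · congr 1 <;> ring

include h hL in
/-- The sum over an orbit. -/
theorem orb (i j : ℤ) (hi : 0 ≤ i) (hj : 0 ≤ j) (hi' : i ≤ N) (hj' : j ≤ N) :
    fz F (p - i) (q - j) + fz F (q - i) (p - j) +
      (fz F (d + N - p - i) (d + N - q - j) + fz F (d + N - q - i) (d + N - p - j)) = 0 := by
  have t2 : fz F (q - i) (p - j) = fz F (p - j) (q - i) := h.fz_swap _ _
  have t3 : fz F (d + N - p - i) (d + N - q - j) = fz F (p - (N - i)) (q - (N - j)) := by
    rw [← h.fz_serre]
    congr 1 <;> ring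
  have t4 : fz F (d + N - q - i) (d + N - p - j) = fz F (p - (N - j)) (q - (N - i)) := by
    rw [← h.fz_serre, h.fz_swap]
    congr 1 <;> ring
  rw [t2, t3, t4]
  lift i to ℕ using hi
  lift j to ℕ using hj
  have hi' : i ≤ N := by exact_mod_cast hi'
  have hj' : j ≤ N := by exact_mod_cast hj'
  rcases le_total j i with h1 | h1
  · rcases le_total (i + j) N with h2 | h2
    · have := orb0 hL i j h1 h2
      linarith
    · have := orb0 hL (N - j) (N - i) (by omega) (by omega)
      rw [Nat.cast_sub hi', Nat.cast_sub hj'] at this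
      have e1 : (N : ℤ) - (N - i) = i := by ring
      have e2 : (N : ℤ) - (N - j) = j := by ring
      rw [e1, e2] at this
      linarith
  · rcases le_total (i + j) N with h2 | h2
    · have := orb0 hL j i h1 (by omega)
      linarith
    · have := orb0 hL (N - i) (N - j) (by omega) (by omega)
      rw [Nat.cast_sub hi', Nat.cast_sub hj'] at this
      have e1 : (N : ℤ) - (N - i) = i := by ring
      have e2 : (N : ℤ) - (N - j) = j := by ring
      rw [e1, e2] at this
      linarith

include h hL in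
/-- **The core**: if the coefficients of `x^p y^q` in the products of `F` with the symmetric
polynomials of degree `N` vanish, then `F = 0`, provided `d ≤ p, q, d + N - p, d + N - q`. -/
theorem core (h1 : d ≤ p) (h2 : d ≤ q) (h3 : p ≤ N) (h4 : q ≤ N) (a b : ℕ) : cf F a b = 0 := by
  classical
  by_contra hne
  set M : ℤ := d + N + 1 with hM
  -- the support
  set S : Finset (ℕ × ℕ) := ((range (d + 1)) ×ˢ (range (d + 1))).filter fun x => cf F x.1 x.2 ≠ 0
    with hS
  have hmem : ∀ a b, cf F a b ≠ 0 → (a, b) ∈ S := by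
    intro a b hab
    rw [hS, mem_filter, mem_product, mem_range, mem_range]
    refine ⟨⟨?_, ?_⟩, hab⟩
    · by_contra hc
      exact hab (h.out _ _ (by omega))
    · by_contra hc
      exact hab (by rw [h.swap]; exact h.out _ _ (by omega))
  obtain ⟨x, hx, hmax⟩ := S.exists_max_image (fun x : ℕ × ℕ => M * x.1 + x.2) ⟨_, hmem a b hne⟩
  obtain ⟨a, b⟩ := x
  have hab : cf F a b ≠ 0 := (mem_filter.1 hx).2
  have had : a ≤ d := by
    have := (mem_product.1 (mem_filter.1 hx).1).1
    rw [mem_range] at this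
    omega
  have hbd : b ≤ d := by
    have := (mem_product.1 (mem_filter.1 hx).1).2
    rw [mem_range] at this
    omega
  have hzmax : ∀ a' b' : ℤ, M * a + b < M * a' + b' → fz F a' b' = 0 := by
    intro a' b' hlt
    by_contra hc
    have hin : 0 ≤ a' ∧ 0 ≤ b' := by
      by_contra hc'
      exact hc (by rw [fz, if_neg hc'])
    have hcf : cf F a'.toNat b'.toNat ≠ 0 := by
      rw [fz, if_pos hin] at hc
      exact hc
    have := hmax _ (hmem _ _ hcf)
    simp only [Int.toNat_of_nonneg hin.1, Int.toNat_of_nonneg hin.2] at this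
    omega
  have hfz : fz F a b = cf F a b := by
    rw [fz, if_pos ⟨by omega, by omega⟩]
    simp
  set t := cf F a b with ht
  -- the minimal point of the orbit
  let O : Fin 4 → ℤ × ℤ := ![(p, q), (q, p), (d + N - p, d + N - q), (d + N - q, d + N - p)]
  obtain ⟨r, -, hr⟩ := (univ : Finset (Fin 4)).exists_min_image (fun r => M * (O r).1 + (O r).2)
    ⟨0, mem_univ _⟩
  have hO : ∀ s : Fin 4, (d : ℤ) ≤ (O s).1 ∧ (d : ℤ) ≤ (O s).2 ∧ (O s).1 ≤ N ∧ (O s).2 ≤ N := by
    intro s
    fin_cases s <;> simp [O] <;> omega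
  have hterm : ∀ s : Fin 4, fz F ((O s).1 - ((O r).1 - a)) ((O s).2 - ((O r).2 - b)) = 0 ∨
      fz F ((O s).1 - ((O r).1 - a)) ((O s).2 - ((O r).2 - b)) = t := by
    intro s
    rcases (hr s (mem_univ _)).lt_or_eq with hlt | heq
    · left
      apply hzmax
      have : M * ((O s).1 - ((O r).1 - a)) + ((O s).2 - ((O r).2 - b)) =
          M * a + b + (M * (O s).1 + (O s).2 - (M * (O r).1 + (O r).2)) := by ring
      rw [this]
      linarith
    · right
      have e1 : (O s).1 = (O r).1 := by
        obtain ⟨g1, g2, g3, g4⟩ := hO s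
        obtain ⟨k1, k2, k3, k4⟩ := hO r
        have e : M * ((O s).1 - (O r).1) = (O r).2 - (O s).2 := by linarith
        rcases lt_trichotomy (O s).1 (O r).1 with hc | hc | hc
        · have : M * ((O s).1 - (O r).1) ≤ M * (-1) :=
            mul_le_mul_of_nonneg_left (by omega) (by omega)
          omega
        · exact hc
        · have : M * 1 ≤ M * ((O s).1 - (O r).1) :=
            mul_le_mul_of_nonneg_left (by omega) (by omega)
          omega
      have e2 : (O s).2 = (O r).2 := by
        rw [e1] at heq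
        linarith
      rw [e1, e2, sub_sub_cancel, sub_sub_cancel, hfz]
  have hrr : fz F ((O r).1 - ((O r).1 - a)) ((O r).2 - ((O r).2 - b)) = t := by
    rw [sub_sub_cancel, sub_sub_cancel, hfz]
  obtain ⟨k1, k2, k3, k4⟩ := hO r
  have hsum := orb h hL ((O r).1 - a) ((O r).2 - b) (by omega) (by omega) (by omega) (by omega)
  have hnn : ∀ s : Fin 4, 0 ≤ t * fz F ((O s).1 - ((O r).1 - a)) ((O s).2 - ((O r).2 - b)) := by
    intro s
    rcases hterm s with h5 | h5 <;> rw [h5]
    · simp
    · exact mul_self_nonneg t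
  have hsum' : ∑ s : Fin 4, t * fz F ((O s).1 - ((O r).1 - a)) ((O s).2 - ((O r).2 - b)) = 0 := by
    rw [← mul_sum, Fin.sum_univ_four]
    simp only [O, Matrix.cons_val_zero, Matrix.cons_val_one, Matrix.cons_val_two,
      Matrix.cons_val_three, Matrix.head_cons, Matrix.tail_cons] at hsum ⊢
    rw [← add_assoc] at hsum
    rw [hsum, mul_zero]
  have h6 := (sum_eq_zero_iff_of_nonneg fun s _ => hnn s).1 hsum' r (mem_univ _)
  rw [hrr] at h6
  exact hab (mul_self_eq_zero.1 h6)

end orbit

end Pool.Agent.P8H64.MHN
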