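import Pool.Agent.P8H64.MHN.Every

/-!
# Every single Hodge number decides: the theorem
-/

set_option autoImplicit false

open Finset

universe u

namespace Pool.Agent.P8H64.MHN

/-- The Hodge number `h^{p,q}` is almost invariant in dimension `D`: the quotient of the Hodge
numbers `h^{p,q}` of derived equivalent members `X` and `Y` of dimension `D` tends to one as
`h^{p,q}(X)` tends to infinity. In other words, for every `ε > 0` there is a constant `B` such that
`|h^{p,q}(X) - h^{p,q}(Y)| ≤ ε h^{p,q}(X) + B`. -/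
def Varieties.AlmostInvariant {V : Type u} (T : Varieties V) (p q D : ℕ) : Prop :=
  ∀ ε : ℝ, 0 < ε → ∃ B : ℝ, ∀ X Y, T.Deq X Y → T.dim X = D →
    |(T.h X p q : ℝ) - T.h Y p q| ≤ ε * T.h X p q + B

/-- the leading coefficient in `g` -/
theorem lead2 {D G P Q : PS} {p q s : ℕ} (h : ∀ g : ℕ, cf (D * (P + PowerSeries.C (PowerSeries.C (g : ℝ)) * Q) ^ s * G) p q = 0) :
    cf (D * Q ^ s * G) p q = 0 := by
  have hcC : ∀ (t : ℝ) (F : PS), cf (PowerSeries.C (PowerSeries.C t) * F) p q = t * cf F p q := by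
    intro t F
    unfold cf
    rw [PowerSeries.coeff_C_mul, PowerSeries.coeff_C_mul]
  let pol : Polynomial ℝ := ∑ i ∈ range (s + 1), Polynomial.C (cf (D * Q ^ i * P ^ (s - i) * (s.choose i : PS) * G) p q) *
    Polynomial.X ^ i
  have hev : ∀ g : ℕ, pol.eval (g : ℝ) = 0 := by
    intro g
    have e : D * (P + PowerSeries.C (PowerSeries.C (g : ℝ)) * Q) ^ s * G =
        ∑ i ∈ range (s + 1), PowerSeries.C (PowerSeries.C ((g : ℝ) ^ i)) *
          (D * Q ^ i * P ^ (s - i) * (s.choose i : PS) * G) := by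
      rw [add_comm P, (Commute.all _ P).add_pow, mul_sum, sum_mul]
      refine sum_congr rfl fun i _ => ?_
      rw [map_pow, map_pow]
      ring
    have h1 := h g
    rw [e, cf_sum] at h1
    rw [Polynomial.eval_finsetSum]
    rw [← h1]
    refine sum_congr rfl fun i _ => ?_
    rw [hcC, Polynomial.eval_mul, Polynomial.eval_C, Polynomial.eval_pow, Polynomial.eval_X, mul_comm]
  have hz : pol = 0 := by
    refine Polynomial.eq_zero_of_infinite_isRoot pol ?_
    refine (Set.infinite_range_of_injective (Nat.cast_injective (R := ℝ))).mono ?_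
    rintro _ ⟨g, rfl⟩
    exact hev g
  have hc := congrArg (fun q => Polynomial.coeff q s) hz
  simp only [pol, Polynomial.finsetSum_coeff, Polynomial.coeff_C_mul, Polynomial.coeff_X_pow,
    Polynomial.coeff_zero] at hc
  rw [sum_eq_single s] at hc
  · simpa using hc
  · intro i _ hi
    rw [if_neg (Ne.symm hi), mul_zero]
  · intro hs
    exact absurd (mem_range.2 (Nat.lt_succ_self s)) hs

/-- The leading coefficient is determined up to `o(1)`. -/
theorem lin_almost {p p' c c' : ℝ}
    (h : ∀ ε : ℝ, 0 < ε → ∃ B : ℝ, ∀ g : ℕ, |(c + g * p) - (c' + g * p')| ≤ ε * |c + g * p| + B) :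
    p = p' := by
  by_contra hne
  have h1 : 0 < |p - p'| := abs_pos.2 (sub_ne_zero.2 hne)
  obtain ⟨B, hB⟩ := h (|p - p'| / (2 * (|p| + 1))) (by positivity)
  obtain ⟨n, hn⟩ := exists_nat_gt (2 * (|c - c'| + |p - p'| * |c| + B) / |p - p'|)
  have h2 := hB n
  have hn0 : (0 : ℝ) ≤ n := Nat.cast_nonneg n
  have h3 : (n : ℝ) * |p - p'| ≤ |c + n * p - (c' + n * p')| + |c - c'| := by
    have e : (n : ℝ) * (p - p') = (c + n * p - (c' + n * p')) - (c - c') := by ring
    rw [← abs_of_nonneg hn0, ← abs_mul, abs_of_nonneg hn0, e]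
    exact abs_sub _ _
  have h4 : |c + n * p| ≤ |c| + n * |p| := by
    refine (abs_add_le _ _).trans ?_
    rw [abs_mul, abs_of_nonneg hn0]
  have hp : 0 ≤ |p| := abs_nonneg p
  have hc0 : 0 ≤ |c| := abs_nonneg c
  have h5 : |p - p'| / (2 * (|p| + 1)) * |c + n * p| ≤ |p - p'| * |c| + n * |p - p'| / 2 := by
    have h6 : |p - p'| / (2 * (|p| + 1)) ≤ |p - p'| := by
      rw [div_le_iff₀ (by positivity)]
      nlinarith
    have h7 : |p - p'| / (2 * (|p| + 1)) * |p| ≤ |p - p'| / 2 := by
      rw [div_mul_eq_mul_div, div_le_div_iff₀ (by positivity) (by norm_num)]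
      nlinarith
    calc |p - p'| / (2 * (|p| + 1)) * |c + n * p|
        ≤ |p - p'| / (2 * (|p| + 1)) * (|c| + n * |p|) :=
          mul_le_mul_of_nonneg_left h4 (by positivity)
      _ = |p - p'| / (2 * (|p| + 1)) * |c| + n * (|p - p'| / (2 * (|p| + 1)) * |p|) := by ring
      _ ≤ |p - p'| * |c| + n * (|p - p'| / 2) := by gcongr
      _ = |p - p'| * |c| + n * |p - p'| / 2 := by ring
  rw [div_lt_iff₀ h1] at hn
  linarith

section Main

variable {V : Type u} (T : Varieties V)

/-- The vanishing of the coefficients of the products with symmetric polynomials. -/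
theorem claimE (hC : T.HasCurves) (hP : T.HasPlane) {n p q : ℕ} (E : PS)
    (hinv : ∀ X Y, T.Deq X Y → T.dim X = n → cf (H T X * E) p q = cf (H T Y * E) p q)
    (X Y : V) (hXY : T.Deq X Y) {k : ℕ} (hk : n = T.dim X + k) :
    ∀ i j l, i + j + 2 * l = k → cf ((H T X - H T Y) * E * (v ^ i * uu ^ j * w ^ l)) p q = 0 := by
  obtain ⟨L, hL⟩ := hC 0
  obtain ⟨S, hS⟩ := hP
  choose Z hZ using hC
  set D : PS := H T X - H T Y with hD
  have claim : ∀ i c N s, s + 2 * i + 2 * c + N = k →
      cf (D * E * v ^ s * w ^ i * (H T S ^ c * uu ^ N)) p q = 0 := by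
    intro i
    induction i with
    | zero =>
      intro c N s hs
      rw [pow_zero, mul_one]
      refine lead2 (P := uu) fun g => ?_
      have hH : ∀ W, H T (pad T L (pad T S (pad T (Z g) W s) c) N) * E =
          H T W * E * (uu + PowerSeries.C (PowerSeries.C (g : ℝ)) * v) ^ s * (H T S ^ c * uu ^ N) := by
        intro W
        rw [pad_H, pad_H, pad_H, H_curve T (hZ g) hL, H_line T hL, vv_eq]
        ring
      have hdim : T.dim (pad T L (pad T S (pad T (Z g) X s) c) N) = n := by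
        rw [pad_dim', pad_dim', pad_dim', hL.1, hS.1, (hZ g).1, hk]
        omega
      have h1 := hinv _ _ (pad_deq T (pad_deq T (pad_deq T hXY s) c) N) hdim
      rw [hH, hH] at h1
      have e : D * E * (uu + PowerSeries.C (PowerSeries.C (g : ℝ)) * v) ^ s * (H T S ^ c * uu ^ N) =
          H T X * E * (uu + PowerSeries.C (PowerSeries.C (g : ℝ)) * v) ^ s * (H T S ^ c * uu ^ N) -
          H T Y * E * (uu + PowerSeries.C (PowerSeries.C (g : ℝ)) * v) ^ s * (H T S ^ c * uu ^ N) := by
        rw [hD]; ring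
      rw [e, cf_sub, h1, sub_self]
    | succ i ih =>
      intro c N s hs
      have h1 := ih c (N + 2) s (by omega)
      have h2 := ih (c + 1) N s (by omega)
      have e : D * E * v ^ s * w ^ (i + 1) * (H T S ^ c * uu ^ N) =
          D * E * v ^ s * w ^ i * (H T S ^ c * uu ^ (N + 2)) -
            D * E * v ^ s * w ^ i * (H T S ^ (c + 1) * uu ^ N) := by
        have hw : w = uu ^ 2 - H T S := by
          rw [H_plane T hS, uu]; ring
        linear_combination (D * E * v ^ s * w ^ i * (H T S ^ c * uu ^ N)) * hw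
      rw [e, cf_sub, h1, h2, sub_zero]
  intro i j l hijl
  have := claim l 0 j i (by omega)
  have e : D * E * (v ^ i * uu ^ j * w ^ l) = D * E * v ^ i * w ^ l * (H T S ^ 0 * uu ^ j) := by ring
  rw [e, this]

theorem cf_H (X : V) (a b : ℕ) : cf (H T X) a b = T.h X a b := H_coeff T X a b

/-- The difference of the Hodge polynomials. -/
theorem sy_diff (hsy : T.Symm) {X Y : V} {d : ℕ} (hX : T.dim X = d) (hY : T.dim Y = d) :
    Sy d (H T X - H T Y) where
  swap a b := by
    rw [cf_sub, cf_sub, cf_H, cf_H, cf_H, cf_H, hsy X a b, hsy Y a b]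
  out a b h := by
    rw [cf_sub, cf_H, cf_H, T.h_out X _ _ (Or.inl (by omega)), T.h_out Y _ _ (Or.inl (by omega))]
    simp
  serre a b ha hb := by
    have h1 := T.serre X a b (by omega) (by omega)
    have h2 := T.serre Y a b (by omega) (by omega)
    rw [hX] at h1
    rw [hY] at h2
    rw [cf_sub, cf_sub, cf_H, cf_H, cf_H, cf_H, h1, h2]

theorem cf_v (F : PS) (a b : ℕ) : cf (F * v) a b = fz F (a - 1) b + fz F a (b - 1) := by
  have e : F * v = F * (xx ^ 1 * yy ^ 0) + F * (xx ^ 0 * yy ^ 1) := by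
    rw [v]; ring
  rw [e, cf_add, cf_monz, cf_monz]
  simp

/-- The product with `x + y`. -/
theorem Sy.mul_v {d : ℕ} {F : PS} (h : Sy d F) : Sy (d + 1) (F * v) where
  swap a b := by
    rw [cf_v, cf_v, h.fz_swap (a - 1) b, h.fz_swap a (b - 1), add_comm]
  out a b hab := by
    rw [cf_v, h.fz_out (Or.inr (Or.inr (Or.inl (by omega)))),
      h.fz_out (Or.inr (Or.inr (Or.inl (by omega)))), add_zero]
  serre a b ha hb := by
    rw [cf_v, cf_v, Nat.cast_sub ha, Nat.cast_sub hb]
    have e1 : fz F (((d + 1 : ℕ) : ℤ) - a - 1) (((d + 1 : ℕ) : ℤ) - b) = fz F a (b - 1) := by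
      rw [← h.fz_serre]
      congr 1 <;> push_cast <;> ring
    have e2 : fz F (((d + 1 : ℕ) : ℤ) - a) (((d + 1 : ℕ) : ℤ) - b - 1) = fz F (a - 1) b := by
      rw [← h.fz_serre]
      congr 1 <;> push_cast <;> ring
    rw [e1, e2, add_comm]

theorem eq_zero_of_cf {F : PS} (h : ∀ a b, cf F a b = 0) : F = 0 := by
  ext a b
  exact h a b

theorem v_ne : v ≠ 0 := by
  rw [← vv_eq]
  exact vv_ne

theorem every1 (hC : T.HasCurves) (hsy : T.Symm) (hP : T.HasPlane) {D p q : ℕ}
    (hinv : ∀ X Y, T.Deq X Y → T.dim X = D → T.h X p q = T.h Y p q)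
    {X Y : V} (hXY : T.Deq X Y) (h1 : T.dim X ≤ p) (h2 : T.dim X ≤ q) (h3 : T.dim X + p ≤ D)
    (h4 : T.dim X + q ≤ D) (a b : ℕ) : T.h X a b = T.h Y a b := by
  obtain ⟨N, rfl⟩ := Nat.exists_eq_add_of_le (show T.dim X ≤ D by omega)
  have hY : T.dim Y = T.dim X := (T.deq_dim X Y hXY).symm
  have hL := claimE T hC hP (n := T.dim X + N) (p := p) (q := q) 1 (fun X' Y' h' hd' => by
    rw [mul_one, mul_one, cf_H, cf_H, hinv X' Y' h' hd']) X Y hXY rfl
  have := core (F := (H T X - H T Y) * 1) (by rw [mul_one]; exact sy_diff T hsy rfl hY) hL h1 h2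
    (by omega) (by omega) a b
  rw [mul_one, cf_sub, cf_H, cf_H, sub_eq_zero] at this
  exact_mod_cast this

theorem every2 (hC : T.HasCurves) (hsy : T.Symm) (hP : T.HasPlane) {D p q : ℕ}
    (hinv : T.AlmostInvariant p q D)
    {X Y : V} (hXY : T.Deq X Y) (h1 : T.dim X < p) (h2 : T.dim X < q) (h3 : T.dim X + p < D)
    (h4 : T.dim X + q < D) (a b : ℕ) : T.h X a b = T.h Y a b := by
  obtain ⟨N, rfl⟩ := Nat.exists_eq_add_of_le (show T.dim X + 1 ≤ D by omega)
  have hY : T.dim Y = T.dim X := (T.deq_dim X Y hXY).symm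
  have hL := claimE T hC hP (n := T.dim X + N) (p := p) (q := q) v (fun X' Y' h' hd' => by
    obtain ⟨L, hL⟩ := hC 0
    choose Z hZ using hC
    have hH : ∀ (W : V) (g : ℕ), (T.h (T.prod W (Z g)) p q : ℝ) =
        cf (H T W * uu) p q + g * cf (H T W * v) p q := by
      intro W g
      rw [← cf_H, H_prod, H_curve T (hZ g) hL, H_line T hL, vv_eq]
      have e : H T W * (uu + PowerSeries.C (PowerSeries.C (g : ℝ)) * v) =
          H T W * uu + PowerSeries.C (PowerSeries.C (g : ℝ)) * (H T W * v) := by ring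
      rw [e, cf_add]
      congr 1
      unfold cf
      rw [PowerSeries.coeff_C_mul, PowerSeries.coeff_C_mul]
    refine lin_almost (c := cf (H T X' * uu) p q) (c' := cf (H T Y' * uu) p q) fun ε hε => ?_
    obtain ⟨B, hB⟩ := hinv ε hε
    refine ⟨B, fun g => ?_⟩
    have := hB _ _ (T.deq_prod X' Y' (Z g) h') (by rw [T.dim_prod, hd', (hZ g).1]; ring)
    rw [hH, hH] at this
    refine this.trans ?_
    rw [← hH, abs_of_nonneg (Nat.cast_nonneg _)]) X Y hXY rfl
  have hzero := eq_zero_of_cf (core (F := (H T X - H T Y) * v) (d := T.dim X + 1)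
    (sy_diff T hsy rfl hY).mul_v hL (by omega) (by omega) (by omega) (by omega))
  rcases mul_eq_zero.1 hzero with h5 | h5
  · have : cf (H T X - H T Y) a b = 0 := by
      rw [h5]
      unfold cf
      rw [map_zero, map_zero]
    rw [cf_sub, cf_H, cf_H, sub_eq_zero] at this
    exact_mod_cast this
  · exact absurd h5 v_ne

end Main

end Pool.Agent.P8H64.MHN
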