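import Pool.Agent.P8H64.MHN.Defs

/-!
# The middle Hodge number decides
-/

set_option autoImplicit false

universe u

namespace Pool.Agent.P8H64.MHN

open Finset Filter Topology

variable {V : Type u} (T : Varieties V)

/-- the inner product -/
noncomputable def ipm (m : ℕ) (F G : ℕ → ℕ → ℝ) : ℝ := ∑ i ∈ range (m + 1), ∑ j ∈ range (m + 1), F i j * G i j

theorem ipm_comm (m : ℕ) (F G : ℕ → ℕ → ℝ) : ipm m F G = ipm m G F := by
  unfold ipm
  exact sum_congr rfl fun i _ => sum_congr rfl fun j _ => mul_comm _ _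

theorem ipm_lin (m : ℕ) (F F' G G' : ℕ → ℕ → ℝ) (g : ℝ) :
    ipm m (fun i j => F i j + g * F' i j) (fun i j => G i j + g * G' i j) =
      ipm m F G + (ipm m F G' + ipm m F' G) * g + ipm m F' G' * g ^ 2 := by
  unfold ipm
  rw [← sum_add_distrib, sum_mul, sum_mul, ← sum_add_distrib, ← sum_add_distrib]
  refine sum_congr rfl fun i _ => ?_
  rw [← sum_add_distrib, sum_mul, sum_mul, ← sum_add_distrib, ← sum_add_distrib]
  exact sum_congr rfl fun j _ => by ring

theorem ipm_sub (m : ℕ) (F F' G : ℕ → ℕ → ℝ) :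
    ipm m (fun i j => F i j - F' i j) G = ipm m F G - ipm m F' G := by
  unfold ipm
  rw [← sum_sub_distrib]
  refine sum_congr rfl fun i _ => ?_
  rw [← sum_sub_distrib]
  exact sum_congr rfl fun j _ => by ring

theorem ipm_self {m : ℕ} {F : ℕ → ℕ → ℝ} (h : ipm m F F = 0) : ∀ i ≤ m, ∀ j ≤ m, F i j = 0 := by
  intro i hi j hj
  unfold ipm at h
  rw [sum_eq_zero_iff_of_nonneg fun i _ => sum_nonneg fun j _ => mul_self_nonneg _] at h
  have h1 := h i (mem_range.2 (by omega))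
  rw [sum_eq_zero_iff_of_nonneg fun j _ => mul_self_nonneg _] at h1
  exact mul_self_eq_zero.1 (h1 j (mem_range.2 (by omega)))

/-- the Hodge numbers as real numbers -/
def hr (X : V) : ℕ → ℕ → ℝ := fun p q => (T.h X p q : ℝ)

/-- the middle Hodge number of a product is an inner product -/
theorem mid_prod {A B : V} {m : ℕ} (hB : T.dim B = m) :
    (T.h (T.prod A B) m m : ℝ) = ipm m (hr T A) (hr T B) := by
  rw [T.kunneth]
  push_cast
  rw [Nat.sum_antidiagonal_eq_sum_range_succ_mk]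
  refine sum_congr rfl fun i hi => ?_
  rw [Nat.sum_antidiagonal_eq_sum_range_succ_mk]
  refine sum_congr rfl fun j hj => ?_
  rw [mem_range] at hi hj
  have := T.serre B i j (by omega) (by omega)
  rw [hB] at this
  simp only
  rw [this]
  rfl

/-- the Hodge polynomial -/
noncomputable def H (X : V) : PowerSeries (PowerSeries ℝ) :=
  PowerSeries.mk fun p => PowerSeries.mk fun q => (T.h X p q : ℝ)

theorem H_coeff (X : V) (p q : ℕ) : PowerSeries.coeff q (PowerSeries.coeff p (H T X)) = (T.h X p q : ℝ) := by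
  rw [H, PowerSeries.coeff_mk, PowerSeries.coeff_mk]

theorem H_prod (X Y : V) : H T (T.prod X Y) = H T X * H T Y := by
  ext p q
  rw [H_coeff, PowerSeries.coeff_mul, map_sum, T.kunneth]
  push_cast
  refine sum_congr rfl fun a _ => ?_
  rw [PowerSeries.coeff_mul]
  refine sum_congr rfl fun b _ => ?_
  rw [H_coeff, H_coeff]

/-- `x + y` -/
noncomputable def vv : PowerSeries (PowerSeries ℝ) :=
  PowerSeries.mk fun p => PowerSeries.mk fun q => if p + q = 1 then 1 else 0

theorem vv_ne : vv ≠ 0 := by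
  intro h
  have := congrArg (fun F => PowerSeries.coeff 1 (PowerSeries.coeff 0 F)) h
  simp only [vv, PowerSeries.coeff_mk, map_zero] at this
  norm_num at this

theorem H_ne {Z : V} (hZ : T.h Z 0 0 = 1) : H T Z ≠ 0 := by
  intro h
  have := congrArg (fun F => PowerSeries.coeff 0 (PowerSeries.coeff 0 F)) h
  simp only [H_coeff, hZ, map_zero] at this
  norm_num at this

theorem H_curve {Z L : V} {g : ℕ} (h0 : T.dim Z = 1 ∧ T.h Z 0 0 = 1 ∧ T.h Z 1 0 = g ∧ T.h Z 0 1 = g ∧ T.h Z 1 1 = 1)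
    (hL : T.dim L = 1 ∧ T.h L 0 0 = 1 ∧ T.h L 1 0 = 0 ∧ T.h L 0 1 = 0 ∧ T.h L 1 1 = 1) :
    H T Z = H T L + PowerSeries.C (PowerSeries.C (g : ℝ)) * vv := by
  obtain ⟨z1, z2, z3, z4, z5⟩ := h0
  obtain ⟨l1, l2, l3, l4, l5⟩ := hL
  ext p q
  rw [H_coeff, map_add, map_add, H_coeff, PowerSeries.coeff_C_mul, PowerSeries.coeff_C_mul, vv,
    PowerSeries.coeff_mk, PowerSeries.coeff_mk]
  match p, q with
  | 0, 0 => simp [z2, l2]
  | 0, 1 => simp [z4, l4]
  | 1, 0 => simp [z3, l3]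
  | 1, 1 => simp [z5, l5]
  | 0, q + 2 =>
    rw [T.h_out Z _ _ (Or.inr (by omega)), T.h_out L _ _ (Or.inr (by omega)), if_neg (by omega)]
    simp
  | 1, q + 2 =>
    rw [T.h_out Z _ _ (Or.inr (by omega)), T.h_out L _ _ (Or.inr (by omega)), if_neg (by omega)]
    simp
  | p + 2, q =>
    rw [T.h_out Z _ _ (Or.inl (by omega)), T.h_out L _ _ (Or.inl (by omega)), if_neg (by omega)]
    simp

/-- multiplication with a power -/
def pad (L : V) (X : V) : ℕ → V
  | 0 => X
  | e + 1 => T.prod (pad L X e) L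

theorem pad_dim {L : V} (hL : T.dim L = 1) (X : V) (e : ℕ) : T.dim (pad T L X e) = T.dim X + e := by
  induction e with
  | zero => rfl
  | succ e ih => rw [pad, T.dim_prod, ih, hL]; ring

theorem pad_H (L X : V) (e : ℕ) : H T (pad T L X e) = H T X * H T L ^ e := by
  induction e with
  | zero => rw [pad, pow_zero, mul_one]
  | succ e ih => rw [pad, H_prod, ih, pow_succ, mul_assoc]

theorem pad_deq {L X Y : V} (h : T.Deq X Y) (e : ℕ) : T.Deq (pad T L X e) (pad T L Y e) := by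
  induction e with
  | zero => exact h
  | succ e ih => exact T.deq_prod _ _ _ ih

/-- comparison of quadratic polynomials -/
theorem quad {p0 p1 p2 q0 q1 q2 : ℝ} (h : ∀ ε : ℝ, 0 < ε → ∃ C : ℝ, ∀ g : ℕ,
    |p0 + p1 * g + p2 * (g : ℝ) ^ 2| ≤ ε * (q0 + q1 * g + q2 * (g : ℝ) ^ 2) + C) : p2 = 0 := by
  have key : ∀ a0 a1 a2 : ℝ, Tendsto (fun g : ℕ => (a0 + a1 * g + a2 * (g : ℝ) ^ 2) / (g : ℝ) ^ 2) atTop (𝓝 a2) := by
    intro a0 a1 a2
    have h1 : Tendsto (fun g : ℕ => a0 * ((g : ℝ)⁻¹) ^ 2 + a1 * (g : ℝ)⁻¹ + a2) atTop (𝓝 (a0 * 0 ^ 2 + a1 * 0 + a2)) := by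
      have h2 : Tendsto (fun g : ℕ => ((g : ℝ)⁻¹)) atTop (𝓝 0) := tendsto_inv_atTop_nhds_zero_nat
      exact (((h2.pow 2).const_mul a0).add (h2.const_mul a1)).add_const a2
    rw [show a0 * 0 ^ 2 + a1 * 0 + a2 = a2 by ring] at h1
    refine h1.congr' ?_
    filter_upwards [eventually_gt_atTop 0] with g hg
    have : (g : ℝ) ≠ 0 := by exact_mod_cast hg.ne'
    field_simp
  have h1 : ∀ ε : ℝ, 0 < ε → |p2| ≤ ε * q2 := by
    intro ε hε
    obtain ⟨C, hC⟩ := h ε hε
    have h2 : Tendsto (fun g : ℕ => |(p0 + p1 * g + p2 * (g : ℝ) ^ 2) / (g : ℝ) ^ 2|) atTop (𝓝 |p2|) :=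
      (key p0 p1 p2).abs
    have h3 : Tendsto (fun g : ℕ => ((ε * q0 + C) + (ε * q1) * g + (ε * q2) * (g : ℝ) ^ 2) / (g : ℝ) ^ 2) atTop
        (𝓝 (ε * q2)) := key _ _ _
    refine le_of_tendsto_of_tendsto h2 h3 ?_
    filter_upwards [eventually_gt_atTop 0] with g hg
    have hg2 : (0 : ℝ) < (g : ℝ) ^ 2 := by positivity
    rw [abs_div, abs_of_pos hg2]
    refine div_le_div_of_nonneg_right ((hC g).trans (le_of_eq (by ring))) hg2.le
  by_contra hp
  have hp' : 0 < |p2| := abs_pos.2 hp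
  have hq : 0 < q2 := by
    have := h1 1 one_pos
    linarith
  have := h1 (|p2| / (2 * q2)) (by positivity)
  have h2 : |p2| / (2 * q2) * q2 = |p2| / 2 := by field_simp
  rw [h2] at this
  linarith

/-- **without curves** -/
theorem main0 (d : ℕ) (hm : ∀ X Y, T.Deq X Y → T.dim X = 2 * d → T.h X d d = T.h Y d d) (X Y : V) (hXY : T.Deq X Y)
    (hX : T.dim X = d) (p q : ℕ) : T.h X p q = T.h Y p q := by
  have hY : T.dim Y = d := by rw [← T.deq_dim X Y hXY, hX]
  have h1 := hm _ _ (T.deq_prod X Y X hXY) (by rw [T.dim_prod, hX]; ring)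
  have h2 := hm _ _ (T.deq_prod X Y Y hXY) (by rw [T.dim_prod, hX, hY]; ring)
  have h1' : ipm d (hr T X) (hr T X) = ipm d (hr T Y) (hr T X) := by
    rw [← mid_prod T hX, ← mid_prod T hX, h1]
  have h2' : ipm d (hr T X) (hr T Y) = ipm d (hr T Y) (hr T Y) := by
    rw [← mid_prod T hY, ← mid_prod T hY, h2]
  have h3 : ipm d (fun i j => hr T X i j - hr T Y i j) (fun i j => hr T X i j - hr T Y i j) = 0 := by
    rw [ipm_sub, ipm_comm, ipm_comm d (hr T Y), ipm_sub, ipm_sub]
    rw [ipm_comm d (hr T Y) (hr T X)] at h1' ⊢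
    linarith
  by_cases hpq : p ≤ d ∧ q ≤ d
  · have h4 := ipm_self h3 p hpq.1 q hpq.2
    have h5 : (T.h X p q : ℝ) = T.h Y p q := sub_eq_zero.1 h4
    exact_mod_cast h5
  · rw [T.h_out X p q (by omega), T.h_out Y p q (by omega)]

/-- **with curves, asymptotically** -/
theorem main1 (hC : T.HasCurves) (m : ℕ)
    (hm : ∀ ε : ℝ, 0 < ε → ∃ C : ℝ, ∀ X Y, T.Deq X Y → T.dim X = 2 * m →
      |(T.h X m m : ℝ) - T.h Y m m| ≤ ε * T.h X m m + C)
    (X Y : V) (hXY : T.Deq X Y) (hX : T.dim X < m) (p q : ℕ) : T.h X p q = T.h Y p q := by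
  obtain ⟨L, hL⟩ := hC 0
  choose Z hZ using hC
  have hY : T.dim Y = T.dim X := (T.deq_dim X Y hXY).symm
  obtain ⟨e, he⟩ : ∃ e, m = T.dim X + 1 + e := ⟨m - T.dim X - 1, by omega⟩
  -- the varieties
  let A : V → ℕ → V := fun W g => pad T L (T.prod W (Z g)) e
  have hA : ∀ W g, T.dim W = T.dim X → T.dim (A W g) = m := by
    intro W g hW
    show T.dim (pad T L (T.prod W (Z g)) e) = m
    rw [pad_dim T hL.1, T.dim_prod, hW, (hZ g).1, he]
  let al : V → ℕ → ℕ → ℝ := fun W i j => PowerSeries.coeff j (PowerSeries.coeff i (H T W * H T L * H T L ^ e))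
  let be : V → ℕ → ℕ → ℝ := fun W i j => PowerSeries.coeff j (PowerSeries.coeff i (H T W * vv * H T L ^ e))
  have hab : ∀ W g, hr T (A W g) = fun i j => al W i j + g * be W i j := by
    intro W g
    funext i j
    show (T.h (A W g) i j : ℝ) = _
    rw [← H_coeff]
    show PowerSeries.coeff j (PowerSeries.coeff i (H T (pad T L (T.prod W (Z g)) e))) = _
    rw [pad_H, H_prod, H_curve T (hZ g) hL]
    have e1 : H T W * (H T L + PowerSeries.C (PowerSeries.C (g : ℝ)) * vv) * H T L ^ e =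
        H T W * H T L * H T L ^ e + PowerSeries.C (PowerSeries.C (g : ℝ)) * (H T W * vv * H T L ^ e) := by ring
    rw [e1, map_add, map_add, PowerSeries.coeff_C_mul, PowerSeries.coeff_C_mul]
  -- the leading coefficients
  have hlead : ∀ W, T.dim W = T.dim X → ipm m (fun i j => be X i j - be Y i j) (be W) = 0 := by
    intro W hW
    have hkey : ∀ ε : ℝ, 0 < ε → ∃ C : ℝ, ∀ g : ℕ,
        |(ipm m (al X) (al W) - ipm m (al Y) (al W)) +
          ((ipm m (al X) (be W) + ipm m (be X) (al W)) - (ipm m (al Y) (be W) + ipm m (be Y) (al W))) * g +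
          (ipm m (be X) (be W) - ipm m (be Y) (be W)) * (g : ℝ) ^ 2| ≤
        ε * (ipm m (al X) (al W) + (ipm m (al X) (be W) + ipm m (be X) (al W)) * g +
          ipm m (be X) (be W) * (g : ℝ) ^ 2) + C := by
      intro ε hε
      obtain ⟨C, hC⟩ := hm ε hε
      refine ⟨C, fun g => ?_⟩
      have h1 := hC (T.prod (A X g) (A W g)) (T.prod (A Y g) (A W g))
        (T.deq_prod _ _ _ (pad_deq T (T.deq_prod _ _ _ hXY) e))
        (by rw [T.dim_prod, hA X g rfl, hA W g hW]; ring)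
      rw [mid_prod T (hA W g hW), mid_prod T (hA W g hW), hab, hab, hab, ipm_lin, ipm_lin] at h1
      refine le_trans (le_of_eq ?_) h1
      congr 1
      ring
    have := quad hkey
    rw [ipm_sub]
    exact this
  have h3 : ipm m (fun i j => be X i j - be Y i j) (fun i j => be X i j - be Y i j) = 0 := by
    have h4 := hlead X rfl
    have h5 := hlead Y hY
    rw [ipm_comm, ipm_sub, ipm_comm m (be X), ipm_comm m (be Y), h4, h5, sub_zero]
  have hout : ∀ W i j, T.dim W = T.dim X → (m < i ∨ m < j) → be W i j = 0 := by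
    intro W i j hW hij
    have e0 := congrFun (congrFun (hab W 0) i) j
    have e1 := congrFun (congrFun (hab W 1) i) j
    have f0 : hr T (A W 0) i j = 0 := by
      show (T.h (A W 0) i j : ℝ) = 0
      rw [T.h_out _ _ _ (by rw [hA W 0 hW]; exact hij), Nat.cast_zero]
    have f1 : hr T (A W 1) i j = 0 := by
      show (T.h (A W 1) i j : ℝ) = 0
      rw [T.h_out _ _ _ (by rw [hA W 1 hW]; exact hij), Nat.cast_zero]
    rw [f0] at e0
    rw [f1] at e1
    simp only [Nat.cast_zero, zero_mul, add_zero, Nat.cast_one, one_mul] at e0 e1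
    linarith
  have h6 : H T X * vv * H T L ^ e = H T Y * vv * H T L ^ e := by
    ext i j
    show be X i j = be Y i j
    by_cases hij : i ≤ m ∧ j ≤ m
    · exact sub_eq_zero.1 (ipm_self h3 i hij.1 j hij.2)
    · rw [hout X i j rfl (by omega), hout Y i j hY (by omega)]
  have h7 : H T X = H T Y :=
    mul_right_cancel₀ vv_ne (mul_right_cancel₀ (pow_ne_zero e (H_ne T hL.2.1)) h6)
  have h8 : (T.h X p q : ℝ) = T.h Y p q := by rw [← H_coeff, ← H_coeff, h7]
  exact_mod_cast h8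

end Pool.Agent.P8H64.MHN
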