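import Pool.Agent.P8H64.MHN.Main

/-!
# The middle Hodge number of products
-/

set_option autoImplicit false

open Finset

universe u

namespace Pool.Agent.P8H64.MHN

variable {V : Type u} (T : Varieties V)

theorem mid_diff {X Y : V} {d : ℕ} (hX : T.dim X = d) (hY : T.dim Y = d) :
    ipm d (fun i j => hr T X i j - hr T Y i j) (fun i j => hr T X i j - hr T Y i j) =
      (T.h (T.prod X X) d d : ℝ) + T.h (T.prod Y Y) d d - 2 * T.h (T.prod X Y) d d := by
  rw [mid_prod T hX, mid_prod T hY, mid_prod T hY, ipm_sub, ipm_comm, ipm_comm d (hr T Y), ipm_sub,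
    ipm_sub, ipm_comm d (hr T Y) (hr T X)]
  ring

theorem ipm_nonneg (d : ℕ) (F : ℕ → ℕ → ℝ) : 0 ≤ ipm d F F :=
  sum_nonneg fun _ _ => sum_nonneg fun _ _ => mul_self_nonneg _

/-- The inequality for the middle Hodge numbers of the products, and the case of equality. -/
theorem mid_le {X Y : V} {d : ℕ} (hX : T.dim X = d) (hY : T.dim Y = d) :
    2 * T.h (T.prod X Y) d d ≤ T.h (T.prod X X) d d + T.h (T.prod Y Y) d d ∧
    (2 * T.h (T.prod X Y) d d = T.h (T.prod X X) d d + T.h (T.prod Y Y) d d ↔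
      ∀ p q, T.h X p q = T.h Y p q) := by
  have h0 := ipm_nonneg d fun i j => hr T X i j - hr T Y i j
  rw [mid_diff T hX hY] at h0
  refine ⟨?_, fun h p q => ?_, fun h => ?_⟩
  · have : (2 * (T.h (T.prod X Y) d d : ℝ)) ≤ T.h (T.prod X X) d d + T.h (T.prod Y Y) d d := by
      linarith
    exact_mod_cast this
  · have h' : (2 * (T.h (T.prod X Y) d d : ℝ)) = T.h (T.prod X X) d d + T.h (T.prod Y Y) d d := by
      exact_mod_cast h
    have h3 := mid_diff T hX hY
    rw [← h', sub_self] at h3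
    by_cases hpq : p ≤ d ∧ q ≤ d
    · have h4 := ipm_self h3 p hpq.1 q hpq.2
      have h5 : (T.h X p q : ℝ) = T.h Y p q := sub_eq_zero.1 h4
      exact_mod_cast h5
    · rw [T.h_out X p q (by omega), T.h_out Y p q (by omega)]
  · have e1 : hr T X = hr T Y := by
      funext p q
      exact congrArg Nat.cast (h p q)
    have h1 : (T.h (T.prod X Y) d d : ℝ) = T.h (T.prod X X) d d := by
      rw [mid_prod T hX, mid_prod T hY, e1]
    have h2 : (T.h (T.prod Y Y) d d : ℝ) = T.h (T.prod X X) d d := by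
      rw [mid_prod T hX, mid_prod T hY, e1]
    have h1' : T.h (T.prod X Y) d d = T.h (T.prod X X) d d := by exact_mod_cast h1
    have h2' : T.h (T.prod Y Y) d d = T.h (T.prod X X) d d := by exact_mod_cast h2
    rw [h1', h2']
    ring

theorem H_inj {X Y : V} (h : H T X = H T Y) (p q : ℕ) : T.h X p q = T.h Y p q := by
  have h8 : (T.h X p q : ℝ) = T.h Y p q := by rw [← H_coeff, ← H_coeff, h]
  exact_mod_cast h8

theorem pad_dim2 (L X : V) (e : ℕ) : T.dim (pad T L X e) = T.dim X + T.dim L * e := by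
  induction e with
  | zero => rfl
  | succ e ih => rw [pad, T.dim_prod, ih]; ring

/-- It suffices to know the invariance in the dimension `2jd` for one `j ≥ 1`. -/
theorem mid_pow (d j : ℕ) (hj : 1 ≤ j)
    (hm : ∀ X Y, T.Deq X Y → T.dim X = 2 * (j * d) → T.h X (j * d) (j * d) = T.h Y (j * d) (j * d))
    (X Y : V) (hXY : T.Deq X Y) (hX : T.dim X = d) (p q : ℕ) : T.h X p q = T.h Y p q := by
  obtain ⟨i, rfl⟩ := Nat.exists_eq_add_of_le' hj
  have hY : T.dim Y = d := by rw [← T.deq_dim X Y hXY, hX]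
  have key : ∀ L, T.dim L = d → H T X * H T L ^ i = H T Y * H T L ^ i := by
    intro L hL
    have h1 := main0 T ((i + 1) * d) hm (pad T L X i) (pad T L Y i) (pad_deq T hXY i)
      (by rw [pad_dim2, hX, hL]; ring)
    rw [← pad_H, ← pad_H]
    ext a b
    rw [H_coeff, H_coeff, h1]
  apply H_inj
  by_cases h0 : H T X = 0
  · have h2 := key Y hY
    rw [h0, zero_mul, ← pow_succ'] at h2
    rw [h0, eq_comm]
    exact pow_eq_zero_iff (Nat.succ_ne_zero i) |>.1 h2.symm
  · exact mul_right_cancel₀ (pow_ne_zero i h0) (key X hX)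

end Pool.Agent.P8H64.MHN
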